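import Pool.Agent.H66.OCV.Geo
import Pool.Agent.H65.OCM.Tim
import Pool.Agent.H50.OCV.Sch

/-! # GEO, without hypotheses -/

set_option autoImplicit false

namespace Pool.OCV

theorem geo_thm : GEOStmt := Geos.geo_thm (Pool.Coup.tim_thm 2) (Pool.OCV.sch_thm 2)

end Pool.OCV
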