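import Pool.Agent.H66.OCV.Ker

/-!
Theorem OCV, row GEO: the scheme with all references on one line.
-/

set_option autoImplicit false

namespace Pool.OCV.GeoA

open Finset Real Pool.OCM Pool.OCM.Bas
open Pool.Agent.H32.Dense Pool.STK Pool.KAF Pool.Agent.H49.Ent

/-- Unit covectors. -/
def U (m : Fin 2 → ℝ) : Prop := (∀ i, |m i| ≤ 1) ∧ ∃ i, |m i| = 1

/-! ### fibres -/

theorem Pr_fib_ge {Ω W : Type} [Fintype Ω] [Fintype W] {P : Ω → ℝ} (hP : ∀ ω, 0 ≤ P ω)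
    (κ : Ω → W → ℝ) (hκ : ∀ ω, 0 < P ω → ∀ w, 0 ≤ κ ω w) (A : Set Ω) (G : Set (Ω × W)) {x y : ℝ}
    (hy : 0 ≤ y) (hA : x ≤ Pr P A)
    (h : ∀ ω ∈ A, 0 < P ω → y ≤ Pr (κ ω) {w | (ω, w) ∈ G}) :
    x * y ≤ Pr (fun v : Ω × W => P v.1 * κ v.1 v.2) G := by
  classical
  calc x * y ≤ Pr P A * y := mul_le_mul_of_nonneg_right hA hy
    _ = ∑ ω, (if ω ∈ A then P ω else 0) * y := by rw [Pool.KAF.Pr_eq, Finset.sum_mul]
    _ ≤ ∑ ω, ∑ w, (if (ω, w) ∈ G then P ω * κ ω w else 0) := by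
        refine Finset.sum_le_sum fun ω _ => ?_
        rcases (hP ω).eq_or_lt with h0 | h0
        · rw [← h0]
          simp
        by_cases hω : ω ∈ A
        · rw [if_pos hω]
          calc P ω * y ≤ P ω * Pr (κ ω) {w | (ω, w) ∈ G} :=
                mul_le_mul_of_nonneg_left (h ω hω h0) h0.le
            _ = _ := by
                rw [Pool.KAF.Pr_eq, Finset.mul_sum]
                refine Finset.sum_congr rfl fun w _ => ?_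
                by_cases hw : (ω, w) ∈ G
                · rw [if_pos hw, if_pos (show w ∈ {w | (ω, w) ∈ G} from hw)]
                · rw [if_neg hw, if_neg (show w ∉ {w | (ω, w) ∈ G} from hw), mul_zero]
        · rw [if_neg hω, zero_mul]
          refine Finset.sum_nonneg fun w _ => ?_
          split_ifs
          · exact mul_nonneg h0.le (hκ ω h0 w)
          · exact le_rfl
    _ = _ := by rw [Pool.KAF.Pr_eq, Fintype.sum_prod_type]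

theorem Pr_fin2 {S : Type} [Fintype S] (f : Fin 2 → S → ℝ) (G : Set (Fin 2 → S)) :
    Pr (fun v : Fin 2 → S => ∏ k, f k (v k)) G =
      Pr (fun w : S × S => f 0 w.1 * f 1 w.2) {w | ![w.1, w.2] ∈ G} := by
  classical
  rw [Pool.KAF.Pr_eq, Pool.KAF.Pr_eq, sum_fin2, Fintype.sum_prod_type]
  refine Finset.sum_congr rfl fun x _ => Finset.sum_congr rfl fun y _ => ?_
  have h1 : ∏ k, f k ((![x, y] : Fin 2 → S) k) = f 0 x * f 1 y := by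
    rw [Fin.prod_univ_two]
    rfl
  by_cases h : (![x, y] : Fin 2 → S) ∈ G
  · rw [if_pos h, if_pos (show (x, y) ∈ {w : S × S | ![w.1, w.2] ∈ G} from h), h1]
  · rw [if_neg h, if_neg (show (x, y) ∉ {w : S × S | ![w.1, w.2] ∈ G} from h)]

/-! ### times -/

section

variable (d : Dat 2)

/-- The times on the line of `ω` are typical. -/
def TT (n : ℕ) (δ ν : ℝ) (ω : d.Om) : Prop :=
  Pr (ker d true n ω) {a | |d.th (d.T a) - d.th (d.T ω)| < (2 : ℝ) ^ (-(3 * (n : ℤ)))} ≤ δ ∧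
    Pr (ker d false n ω) {a | |d.th (d.T a) - d.th (d.T ω)| < (2 : ℝ) ^ (-(ν * d.X))} ≤ δ

theorem zpow_rpow (n : ℤ) : (2 : ℝ) ^ n = (2 : ℝ) ^ (n : ℝ) := (Real.rpow_intCast 2 n).symm

theorem TT_near {n : ℕ} {δ ν : ℝ} {ω : d.Om} (h : TT d n δ ν ω) (hP : IsLaw d.P)
    (hω : 0 < d.P ω) (hn : 1 ≤ n) (hνn : ν * d.X ≤ 3 * n) (s : Bool) :
    Pr (ker d s n ω) {a | |d.th (d.T a) - d.th (d.T ω)| < (2 : ℝ) ^ (-(3 * (n : ℤ)))} ≤ δ := by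
  cases s with
  | true => exact h.1
  | false =>
    refine (Pr_mono (ker_law d hP hω hn false).nonneg fun a _ ha => ?_).trans h.2
    refine lt_of_lt_of_le (show |d.th (d.T a) - d.th (d.T ω)| < _ from ha) ?_
    rw [zpow_rpow]
    refine Real.rpow_le_rpow_of_exponent_le (by norm_num) ?_
    push_cast
    linarith

theorem time_typ {δ : ℝ} {R : ℕ} {κ₂ π₁ : ℝ} {n : ℕ} (hn : n = ⌊κ₂ * d.X⌋₊) (hR : R ≤ n)
    (hn1 : 1 ≤ n) (hP : IsLaw d.P)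
    (h2 : Pr d.P {ω | δ * ⌊κ₂ * d.X⌋₊ < ∑ i ∈ Finset.Ico ⌊κ₂ * d.X⌋₊ (2 * ⌊κ₂ * d.X⌋₊),
        Pr (d.pk i ω) {v | |d.th (d.T v) - d.th (d.T ω)| < (2 : ℝ) ^ (-((i : ℤ) + R))}} ≤ π₁)
    (h3 : Pr d.P {ω | δ < Pr (d.pl ω)
        {v | |d.th (d.T v) - d.th (d.T ω)| < (2 : ℝ) ^ (-(κ₂ * d.X))}} ≤ π₁) :
    Pr d.P {ω | ¬ TT d n δ κ₂ ω} ≤ 2 * π₁ := by
  rw [← hn] at h2
  have hn' : (0 : ℝ) < n := by exact_mod_cast hn1
  refine (Pr_mono hP.nonneg (F := {ω | δ * n < ∑ i ∈ Finset.Ico n (2 * n),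
        Pr (d.pk i ω) {v | |d.th (d.T v) - d.th (d.T ω)| < (2 : ℝ) ^ (-((i : ℤ) + R))}} ∪
      {ω | δ < Pr (d.pl ω)
        {v | |d.th (d.T v) - d.th (d.T ω)| < (2 : ℝ) ^ (-(κ₂ * d.X))}}) fun ω hω h => ?_).trans
    ((Pr_union_le hP.nonneg _ _).trans (by linarith))
  by_contra hcon
  apply h
  refine ⟨?_, ?_⟩
  · have h4 : ∑ i ∈ Finset.Ico n (2 * n),
        Pr (d.pk i ω) {v | |d.th (d.T v) - d.th (d.T ω)| < (2 : ℝ) ^ (-((i : ℤ) + R))} ≤ δ * n := by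
      by_contra h5
      exact hcon (Or.inl (not_le.1 h5))
    rw [Pr_ker_true]
    unfold Dat.fm
    rw [div_le_iff₀ hn']
    refine (Finset.sum_le_sum fun i hi => ?_).trans h4
    rw [Finset.mem_Ico] at hi
    refine Pr_mono (pk_law d hP hω i).nonneg fun a _ ha => ?_
    refine lt_of_lt_of_le (show |d.th (d.T a) - d.th (d.T ω)| < _ from ha) ?_
    refine zpow_le_zpow_right₀ (by norm_num) ?_
    omega
  · rw [ker_false]
    by_contra h5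
    exact hcon (Or.inr (not_le.1 h5))

/-- Bound of the slopes. -/
theorem chi_le {A : ℕ} (hok : d.OK A) (t t' : d.Tau) {r : ℝ} (hr : 0 < r)
    (h : r ≤ |d.th t' - d.th t|) (i : Fin 2) : |d.chi t t' i| ≤ 2 / r := by
  unfold Dat.chi
  rw [abs_div]
  have h1 : |d.S t' i - d.S t i| ≤ 2 := by
    have h2 := hok.hS t i
    have h3 := hok.hS t' i
    rw [abs_le] at h2 h3 ⊢
    constructor <;> linarith [h2.1, h2.2, h3.1, h3.2]
  exact div_le_div₀ (by norm_num) h1 hr h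

theorem th_diff_le {A : ℕ} (hok : d.OK A) (t t' : d.Tau) : |d.th t' - d.th t| ≤ 1 := by
  have h1 := hok.hth t
  have h2 := hok.hth t'
  rw [abs_le]
  constructor <;> linarith [h1.1, h1.2, h2.1, h2.2]

/-- A combination of the slopes. -/
theorem chi_comb (t t' : d.Tau) (m : Fin 2 → ℝ) :
    |∑ i, m i * d.chi t t' i| = |∑ i, m i * (d.S t' i - d.S t i)| / |d.th t' - d.th t| := by
  unfold Dat.chi
  rw [← abs_div, Finset.sum_div]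
  congr 1
  refine Finset.sum_congr rfl fun i _ => ?_
  ring

theorem fine_bound {A : ℕ} (hok : d.OK A) {n : ℕ} {δ ν : ℝ} {ω : d.Om} (h : TT d n δ ν ω)
    (hω : 0 < d.P ω) (hn : 1 ≤ n) :
    Pr (ker d true n ω) {a | ∃ i, (2 : ℝ) ^ (3 * n + 1) < |d.chi (d.T ω) (d.T a) i|} ≤ δ := by
  refine (Pr_mono (ker_law d hok.law hω hn true).nonneg fun a _ ha => ?_).trans h.1
  by_contra hcon
  obtain ⟨i, hi⟩ := ha
  have h1 : (2 : ℝ) ^ (-(3 * (n : ℤ))) ≤ |d.th (d.T a) - d.th (d.T ω)| := not_lt.1 hcon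
  have h2 := chi_le d hok (d.T ω) (d.T a) (by positivity) h1 i
  rw [zpow_neg, div_inv_eq_mul] at h2
  have h3 : (2 : ℝ) * (2 : ℝ) ^ (3 * (n : ℤ)) = (2 : ℝ) ^ (3 * n + 1) := by
    rw [show (3 * (n : ℤ)) = ((3 * n : ℕ) : ℤ) by push_cast; ring, zpow_natCast, pow_succ]
    ring
  linarith

/-! ### the good pairs -/

/-- The pair of references is good, seen from one line. -/
def okp (t : d.Tau) (μ : d.Om → ℝ) (kmax : ℕ) (dd : ℝ) (a a' : d.Om) : Prop :=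
  (∃ M, ZOK kmax M ∧ zc M (d.chi t (d.T a)) = Pi.single 0 1 ∧
    zc M (d.chi t (d.T a')) = Pi.single 1 1) ∧
  ∀ M, zc M (d.chi t (d.T a)) = Pi.single 0 1 → zc M (d.chi t (d.T a')) = Pi.single 1 1 →
    Pr μ {s | ∃ i, (2 : ℝ) ^ 2 < |zc M (d.chi t (d.T s)) i|} ≤ dd

/-- The good pairs of kind `s`. -/
def okk (n kmax : ℕ) (dd : ℝ) (s : Fin 2 → Bool) (q : ℝ) (ω : d.Om) : Prop :=
  q ≤ Pr (fun w : d.Om × d.Om => ker d (s 0) n ω w.1 * ker d (s 1) n ω w.2)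
    {w | okp d (d.T ω) (ker d true n ω) kmax dd w.1 w.2}

/-- The scheme `S`. -/
theorem goodS {A : ℕ} (hok : d.OK A) {n kmax : ℕ} (hn : 1 ≤ n) {dd δ ν q x : ℝ}
    (hνn : ν * d.X ≤ 3 * n) (s : Fin 2 → Bool) (Y : Set d.Om) (hx : x ≤ Pr d.P Y)
    (hY : ∀ ω ∈ Y, TT d n δ ν ω ∧ okk d n kmax dd s q ω) (hq : 0 ≤ q - 2 * δ) :
    x * (q - 2 * δ) ≤ Pr (QS d s n)
      (Good d Prod.fst (fun _ v => v.1) (fun k v => v.2 k) n 2 kmax dd) := by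
  classical
  have hP := hok.law
  refine Pr_fib_ge hP.nonneg (fun ω (v : Fin 2 → d.Om) => ∏ k, ker d (s k) n ω (v k))
    (fun ω hω v => Finset.prod_nonneg fun k _ => (ker_law d hP hω hn (s k)).nonneg _) Y _ hq hx ?_
  intro ω hωY hω
  obtain ⟨hT, hk⟩ := hY ω hωY
  rw [Pr_fin2 (fun k => ker d (s k) n ω)]
  have h0 := ker_law d hP hω hn (s 0)
  have h1 := ker_law d hP hω hn (s 1)
  have hpr := prod_law h0 h1
  set N : Set d.Om := {a | |d.th (d.T a) - d.th (d.T ω)| < (2 : ℝ) ^ (-(3 * (n : ℤ)))} with hN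
  have h2 : Pr (fun w : d.Om × d.Om => ker d (s 0) n ω w.1 * ker d (s 1) n ω w.2)
      {w | w.1 ∈ N} ≤ δ := by
    rw [Pr_fst h1]
    exact TT_near d hT hP hω hn hνn _
  have h3 : Pr (fun w : d.Om × d.Om => ker d (s 0) n ω w.1 * ker d (s 1) n ω w.2)
      {w | w.2 ∈ N} ≤ δ := by
    rw [Pr_snd h0]
    exact TT_near d hT hP hω hn hνn _
  have h4 := Geos.Pr_sub3 hpr.nonneg {w | okp d (d.T ω) (ker d true n ω) kmax dd w.1 w.2}
    {w | w.1 ∈ N} {w | w.2 ∈ N}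
    {w : d.Om × d.Om | ![w.1, w.2] ∈ {v : Fin 2 → d.Om | (ω, v) ∈
      Good d (Prod.fst : d.Om × (Fin 2 → d.Om) → d.Om)
        (fun (_ : Fin 2) (v : d.Om × (Fin 2 → d.Om)) => v.1)
        (fun (k : Fin 2) (v : d.Om × (Fin 2 → d.Om)) => v.2 k) n 2 kmax dd}} hk h2 h3 ?_
  · linarith
  rintro ⟨a, a'⟩ ⟨⟨M, hM, hM0, hM1⟩, hall⟩ k1 k2
  have hcr : ∀ M : Fin 2 → Fin 2 → ℝ, (∀ k : Fin 2, zc M (d.chi (d.T ω)
      (d.T ((![a, a'] : Fin 2 → d.Om) k))) = Pi.single k 1) ↔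
      zc M (d.chi (d.T ω) (d.T a)) = Pi.single 0 1 ∧
        zc M (d.chi (d.T ω) (d.T a')) = Pi.single 1 1 := by
    intro M
    rw [Fin.forall_fin_two]
    rfl
  refine ⟨⟨M, hM, (hcr M).2 ⟨hM0, hM1⟩⟩, ?_, ?_⟩
  · rw [Fin.forall_fin_two]
    exact ⟨not_lt.1 k1, not_lt.1 k2⟩
  · intro M hM k
    obtain ⟨g0, g1⟩ := (hcr M).1 hM.2
    have h5 := hall M g0 g1
    rw [Pr_ker_true] at h5
    exact h5

/-! ### case A: many lines are not degenerate -/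

/-- The slopes on the line of `ω` are nearly on a line. -/
def Deg (x1 p1 : ℝ) (ω : d.Om) : Prop :=
  ∃ m : Fin 2 → ℝ, U m ∧ Pr (d.pl ω) {ρ | (2 : ℝ) ^ (-(x1 * d.X)) ≤
    |∑ i, m i * (d.S (d.T ρ) i - d.S (d.T ω) i)|} < p1

theorem geos_at {A : ℕ} (hok : d.OK A) {n : ℕ} (hn : 1 ≤ n) {dd δ ν x1 p1 q : ℝ} {C a : ℕ}
    (hG : ∀ (S T : Type) [Fintype S] [Fintype T] (μ : S → ℝ) (ν : T → ℝ) (χ : S → Fin 2 → ℝ)
      (ψ : T → Fin 2 → ℝ) (a b : ℕ), IsLaw μ → IsLaw ν → 1 ≤ a → 1 ≤ b →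
      Pr μ {s | ∃ i, (2 : ℝ) ^ b < |χ s i|} ≤ dd / 16 →
      (∀ n : Fin 2 → ℝ, (∀ i, |n i| ≤ 1) → (∃ i, |n i| = 1) →
        p1 / 2 ≤ Pr ν {t | (2 : ℝ) ^ (-(a : ℤ)) ≤ |∑ i, n i * ψ t i| ∧ ∀ i, |ψ t i| ≤ 2 ^ a}) →
      let ok : (Fin 2 → ℝ) → (Fin 2 → ℝ) → Prop := fun p q =>
        (∃ M, ZOK (C * (a + b)) M ∧ zc M p = Pi.single 0 1 ∧ zc M q = Pi.single 1 1) ∧
        ∀ M, zc M p = Pi.single 0 1 → zc M q = Pi.single 1 1 →
          Pr μ {s | ∃ i, (2 : ℝ) ^ 2 < |zc M (χ s) i|} ≤ dd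
      q ≤ Pr (fun w : T × T => ν w.1 * ν w.2) {w | ok (ψ w.1) (ψ w.2)} ∨
      q ≤ Pr (fun w : S × S => μ w.1 * μ w.2) {w | ok (χ w.1) (χ w.2)} ∨
      q ≤ Pr (fun w : S × T => μ w.1 * ν w.2) {w | ok (χ w.1) (ψ w.2)})
    (ha : 1 ≤ a) (hx1 : x1 * d.X ≤ a) (hνa : ν * d.X + 1 ≤ a) (hδ : δ ≤ dd / 16) (hδ2 : δ ≤ p1 / 2)
    {ω : d.Om} (hω : 0 < d.P ω) (hT : TT d n δ ν ω) (hD : ¬ Deg d x1 p1 ω) :
    okk d n (C * (a + (3 * n + 1))) dd ![false, false] q ω ∨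
    okk d n (C * (a + (3 * n + 1))) dd ![true, true] q ω ∨
    okk d n (C * (a + (3 * n + 1))) dd ![true, false] q ω := by
  have hP := hok.law
  have h1 := hG d.Om d.Om (ker d true n ω) (ker d false n ω) (fun s => d.chi (d.T ω) (d.T s))
    (fun s => d.chi (d.T ω) (d.T s)) a (3 * n + 1) (ker_law d hP hω hn true)
    (ker_law d hP hω hn false) ha (by omega) ((fine_bound d hok hT hω hn).trans hδ) ?_
  · exact h1
  intro m hm1 hm2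
  have h2 : p1 ≤ Pr (ker d false n ω) {ρ | (2 : ℝ) ^ (-(x1 * d.X)) ≤
      |∑ i, m i * (d.S (d.T ρ) i - d.S (d.T ω) i)|} := by
    by_contra hcon
    rw [ker_false] at hcon
    exact hD ⟨m, ⟨hm1, hm2⟩, not_le.1 hcon⟩
  have h3 := Geos.Pr_sub3 (ker_law d hP hω hn false).nonneg _
    {a | |d.th (d.T a) - d.th (d.T ω)| < (2 : ℝ) ^ (-(ν * d.X))} ∅
    {t | (2 : ℝ) ^ (-(a : ℤ)) ≤ |∑ i, m i * d.chi (d.T ω) (d.T t) i| ∧
      ∀ i, |d.chi (d.T ω) (d.T t) i| ≤ 2 ^ a} (y₂ := 0) h2 hT.2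
    (by rw [Pool.KAF.Pr_eq]; simp) ?_
  · linarith
  intro ρ hρ k1 _
  have k2 : (2 : ℝ) ^ (-(ν * d.X)) ≤ |d.th (d.T ρ) - d.th (d.T ω)| := not_lt.1 k1
  have k0 : 0 < (2 : ℝ) ^ (-(ν * d.X)) := Real.rpow_pos_of_pos (by norm_num) _
  have k3 := th_diff_le d hok (d.T ω) (d.T ρ)
  refine ⟨?_, fun i => ?_⟩
  · rw [chi_comb, le_div_iff₀ (lt_of_lt_of_le k0 k2)]
    have k4 : (2 : ℝ) ^ (-(a : ℤ)) ≤ (2 : ℝ) ^ (-(x1 * d.X)) := by
      rw [zpow_rpow]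
      refine Real.rpow_le_rpow_of_exponent_le (by norm_num) ?_
      push_cast
      linarith
    have k5 : (0 : ℝ) ≤ (2 : ℝ) ^ (-(a : ℤ)) := by positivity
    calc (2 : ℝ) ^ (-(a : ℤ)) * |d.th (d.T ρ) - d.th (d.T ω)| ≤ (2 : ℝ) ^ (-(a : ℤ)) * 1 :=
          mul_le_mul_of_nonneg_left k3 k5
      _ ≤ _ := by rw [mul_one]; exact k4.trans hρ
  · refine (chi_le d hok (d.T ω) (d.T ρ) k0 k2 i).trans ?_
    rw [Real.rpow_neg (by norm_num), div_inv_eq_mul, ← Real.rpow_natCast 2 a]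
    calc (2 : ℝ) * 2 ^ (ν * d.X) = 2 ^ (ν * d.X + 1) := by
          rw [Real.rpow_add (by norm_num), Real.rpow_one]
          ring
      _ ≤ _ := Real.rpow_le_rpow_of_exponent_le (by norm_num) hνa

end

end Pool.OCV.GeoA
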