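import Pool.Agent.H66.OCV.CaseA
import Pool.Agent.H1.OCV.B12

/-!
Theorem OCV, row GEO: the scheme with independent lines.
-/

set_option autoImplicit false

namespace Pool.OCV.GeoA

open Finset Real Pool.OCM Pool.OCM.Bas
open Pool.Agent.H32.Dense Pool.STK Pool.KAF Pool.Agent.H49.Ent

section

variable (d : Dat 2)

/-- The base and two lines through its point. -/
noncomputable def P3 (v : d.Om × (d.Om × d.Om)) : ℝ :=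
  d.P v.1 * (d.pp v.1 v.2.1 * d.pp v.1 v.2.2)

theorem P3_nonneg (hP : IsLaw d.P) (v : d.Om × (d.Om × d.Om)) : 0 ≤ P3 d v := by
  unfold P3
  rcases (hP.nonneg v.1).eq_or_lt with h0 | h0
  · rw [← h0, zero_mul]
  · have h1 := pp_law d hP h0
    exact mul_nonneg h0.le (mul_nonneg (h1.nonneg _) (h1.nonneg _))

theorem P3_supp (hP : IsLaw d.P) {v : d.Om × (d.Om × d.Om)} (h : 0 < P3 d v) :
    0 < d.P v.1 ∧ (0 < d.P v.2.1 ∧ d.pt v.2.1 = d.pt v.1) ∧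
      (0 < d.P v.2.2 ∧ d.pt v.2.2 = d.pt v.1) := by
  have h0 : 0 < d.P v.1 := by
    rcases (hP.nonneg v.1).eq_or_lt with h0 | h0
    · unfold P3 at h
      rw [← h0, zero_mul] at h
      exact absurd h (lt_irrefl _)
    · exact h0
  have h1 := pp_law d hP h0
  have h2 : 0 < d.pp v.1 v.2.1 := by
    rcases (h1.nonneg v.2.1).eq_or_lt with h2 | h2
    · unfold P3 at h
      rw [← h2, zero_mul, mul_zero] at h
      exact absurd h (lt_irrefl _)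
    · exact h2
  have h3 : 0 < d.pp v.1 v.2.2 := by
    rcases (h1.nonneg v.2.2).eq_or_lt with h3 | h3
    · unfold P3 at h
      rw [← h3, mul_zero, mul_zero] at h
      exact absurd h (lt_irrefl _)
    · exact h3
  exact ⟨h0, (cond_pos_iff hP.nonneg _ _ _).1 h2, (cond_pos_iff hP.nonneg _ _ _).1 h3⟩

theorem Pr_QD (s : Fin 2 → Bool) (n : ℕ) (G : Set (d.Om × (Fin 2 → d.Om × d.Om))) :
    Pr (QD d s n) G = Pr (fun v : (d.Om × (d.Om × d.Om)) × (d.Om × d.Om) =>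
      P3 d v.1 * (ker d (s 0) n v.1.2.1 v.2.1 * ker d (s 1) n v.1.2.2 v.2.2))
      {v | (v.1.1, ![(v.1.2.1, v.2.1), (v.1.2.2, v.2.2)]) ∈ G} := by
  classical
  rw [Pool.KAF.Pr_eq, Pool.KAF.Pr_eq]
  simp only [Fintype.sum_prod_type, sum_fin2]
  refine Finset.sum_congr rfl fun ω _ => Finset.sum_congr rfl fun w _ => ?_
  rw [Finset.sum_comm]
  refine Finset.sum_congr rfl fun w' _ => Finset.sum_congr rfl fun ρ _ =>
    Finset.sum_congr rfl fun ρ' _ => ?_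
  have h1 : QD d s n (ω, ![(w, ρ), (w', ρ')]) =
      P3 d (ω, (w, w')) * (ker d (s 0) n w ρ * ker d (s 1) n w' ρ') := by
    unfold QD P3
    rw [Fin.prod_univ_two]
    simp only [Matrix.cons_val_zero, Matrix.cons_val_one]
    ring
  by_cases h : (ω, ![(w, ρ), (w', ρ')]) ∈ G
  · rw [if_pos h, if_pos (by exact h), h1]
  · rw [if_neg h, if_neg (by exact h)]

/-- The pair of references on two lines is good. -/
def okq (t : d.Tau) (μ : Fin 2 → d.Om → ℝ) (kmax : ℕ) (dd : ℝ) (a a' : d.Om) : Prop :=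
  (∃ M, ZOK kmax M ∧ zc M (d.chi t (d.T a)) = Pi.single 0 1 ∧
    zc M (d.chi t (d.T a')) = Pi.single 1 1) ∧
  ∀ M, zc M (d.chi t (d.T a)) = Pi.single 0 1 → zc M (d.chi t (d.T a')) = Pi.single 1 1 → ∀ k,
    Pr (μ k) {s | ∃ i, (2 : ℝ) ^ 2 < |zc M (d.chi t (d.T s)) i|} ≤ dd

/-- Many pairs of references of kind `s` on two lines are good. -/
def okl (n kmax : ℕ) (dd : ℝ) (s : Fin 2 → Bool) (q : ℝ) (t : d.Tau) (w w' : d.Om) : Prop :=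
  q ≤ Pr (fun r : d.Om × d.Om => ker d (s 0) n w r.1 * ker d (s 1) n w' r.2)
    {r | okq d t ![ker d true n w, ker d true n w'] kmax dd r.1 r.2}

/-- The scheme `D`. -/
theorem goodD {A : ℕ} (hok : d.OK A) {n kmax : ℕ} (hn : 1 ≤ n) {dd δ ν q x : ℝ}
    (hνn : ν * d.X ≤ 3 * n) (s : Fin 2 → Bool) (Y : Set (d.Om × (d.Om × d.Om)))
    (hx : x ≤ Pr (P3 d) Y)
    (hY : ∀ v ∈ Y, 0 < P3 d v → TT d n δ ν v.2.1 ∧ TT d n δ ν v.2.2 ∧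
      okl d n kmax dd s q (d.T v.1) v.2.1 v.2.2) (hq : 0 ≤ q - 2 * δ) :
    x * (q - 2 * δ) ≤ Pr (QD d s n)
      (Good d Prod.fst (fun k v => (v.2 k).1) (fun k v => (v.2 k).2) n 2 kmax dd) := by
  classical
  have hP := hok.law
  rw [Pr_QD]
  refine Pr_fib_ge (P3_nonneg d hP)
    (fun (v : d.Om × (d.Om × d.Om)) (r : d.Om × d.Om) =>
      ker d (s 0) n v.2.1 r.1 * ker d (s 1) n v.2.2 r.2)
    (fun v hv r => ?_) Y _ hq hx ?_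
  · obtain ⟨-, ⟨h1, -⟩, ⟨h2, -⟩⟩ := P3_supp d hP hv
    exact mul_nonneg ((ker_law d hP h1 hn (s 0)).nonneg _) ((ker_law d hP h2 hn (s 1)).nonneg _)
  rintro ⟨ω, w, w'⟩ hvY hv
  obtain ⟨hT, hT', hk⟩ := hY _ hvY hv
  obtain ⟨hω, ⟨hw, hpw⟩, ⟨hw', hpw'⟩⟩ := P3_supp d hP hv
  simp only at hT hT' hk hω hw hpw hw' hpw'
  have hTw : d.T w = d.T ω := (Prod.ext_iff.1 (Prod.ext_iff.1 hpw).2).2
  have hTw' : d.T w' = d.T ω := (Prod.ext_iff.1 (Prod.ext_iff.1 hpw').2).2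
  have h0 := ker_law d hP hw hn (s 0)
  have h1 := ker_law d hP hw' hn (s 1)
  have hpr := prod_law h0 h1
  have hN0 := TT_near d hT hP hw hn hνn (s 0)
  have hN1 := TT_near d hT' hP hw' hn hνn (s 1)
  rw [hTw] at hN0
  rw [hTw'] at hN1
  set N : Set d.Om := {a | |d.th (d.T a) - d.th (d.T ω)| < (2 : ℝ) ^ (-(3 * (n : ℤ)))} with hN
  have h2 : Pr (fun r : d.Om × d.Om => ker d (s 0) n w r.1 * ker d (s 1) n w' r.2)
      {r | r.1 ∈ N} ≤ δ := by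
    rw [Pr_fst h1]
    exact hN0
  have h3 : Pr (fun r : d.Om × d.Om => ker d (s 0) n w r.1 * ker d (s 1) n w' r.2)
      {r | r.2 ∈ N} ≤ δ := by
    rw [Pr_snd h0]
    exact hN1
  have h4 := Geos.Pr_sub3 hpr.nonneg
    {r | okq d (d.T ω) ![ker d true n w, ker d true n w'] kmax dd r.1 r.2}
    {r | r.1 ∈ N} {r | r.2 ∈ N}
    {r : d.Om × d.Om | (ω, ![(w, r.1), (w', r.2)]) ∈
      Good d (Prod.fst : d.Om × (Fin 2 → d.Om × d.Om) → d.Om)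
        (fun (k : Fin 2) (v : d.Om × (Fin 2 → d.Om × d.Om)) => (v.2 k).1)
        (fun (k : Fin 2) (v : d.Om × (Fin 2 → d.Om × d.Om)) => (v.2 k).2) n 2 kmax dd} hk h2 h3 ?_
  · refine le_trans ?_ h4
    linarith
  rintro ⟨a, a'⟩ ⟨⟨M, hM, hM0, hM1⟩, hall⟩ k1 k2
  have hcr : ∀ M : Fin 2 → Fin 2 → ℝ, (∀ k : Fin 2, zc M (d.chi (d.T ω)
      (d.T ((![(w, a), (w', a')] : Fin 2 → d.Om × d.Om) k).2)) = Pi.single k 1) ↔
      zc M (d.chi (d.T ω) (d.T a)) = Pi.single 0 1 ∧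
        zc M (d.chi (d.T ω) (d.T a')) = Pi.single 1 1 := by
    intro M
    rw [Fin.forall_fin_two]
    rfl
  refine ⟨⟨M, hM, (hcr M).2 ⟨hM0, hM1⟩⟩, ?_, ?_⟩
  · rw [Fin.forall_fin_two]
    exact ⟨not_lt.1 k1, not_lt.1 k2⟩
  · intro M hM
    obtain ⟨g0, g1⟩ := (hcr M).1 hM.2
    have h5 := hall M g0 g1
    rw [Fin.forall_fin_two] at h5 ⊢
    simp only [Matrix.cons_val_zero, Matrix.cons_val_one, Pr_ker_true] at h5
    exact h5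

/-! ### two degenerate lines through one point -/

/-- On the line of `ω` the slope is constant. -/
def Cst (x0 p0 : ℝ) (ω : d.Om) : Prop :=
  Pr (d.pl ω) {ρ | ∃ i, (2 : ℝ) ^ (-(x0 * d.X)) ≤ |d.S (d.T ρ) i - d.S (d.T ω) i|} < p0

theorem pl_eq {ω a : d.Om} (h : d.L a = d.L ω) : d.pl a = d.pl ω := by
  unfold Dat.pl
  rw [h]

theorem pl_supp (hP : IsLaw d.P) {ω a : d.Om} (h : 0 < d.pl ω a) : 0 < d.P a ∧ d.L a = d.L ω :=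
  (cond_pos_iff hP.nonneg _ _ a).1 h

/-- A degenerate sample of a degenerate line. -/
theorem b1_at {A : ℕ} (hok : d.OK A) {x0 x1 p0 : ℝ} (h0 : 0 < p0) (hp : p0 ≤ 1) (hx0 : 0 ≤ x0)
    {w a : d.Om} (hw : 0 < d.P w) (hL : d.L a = d.L w)
    {m m' : Fin 2 → ℝ} (hm : U m) (hm' : U m')
    (h1 : Pr (d.pl w) {ρ | (2 : ℝ) ^ (-(x1 * d.X)) ≤
      |∑ i, m i * (d.S (d.T ρ) i - d.S (d.T w) i)|} < p0 / 16)
    (h2 : Pr (d.pl a) {ρ | (2 : ℝ) ^ (-(x1 * d.X)) ≤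
      |∑ i, m' i * (d.S (d.T ρ) i - d.S (d.T a) i)|} < p0 / 16)
    (h3 : Pr (d.pl w) {r | Cst d x0 p0 r} ≤ 1 / 2) :
    |∑ i, m i * (d.S (d.T a) i - d.S (d.T w) i)| ≤ 10 * (2 : ℝ) ^ (-((x1 - x0) * d.X)) := by
  have hP := hok.law
  have hX : (0 : ℝ) ≤ d.X := Nat.cast_nonneg _
  rw [pl_eq d hL] at h2
  have h4 := B12.b1 (pl_law d hP hw) (fun r => d.S (d.T r)) (fun r i => hok.hS _ i)
    (d.S (d.T w)) (d.S (d.T a)) (fun i => hok.hS _ i) (fun i => hok.hS _ i) m m' hm hm' p0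
    ((2 : ℝ) ^ (-(x0 * d.X))) ((2 : ℝ) ^ (-(x1 * d.X))) h0 (by positivity) (by positivity) ?_
    h1 h2 ?_ hp
  · refine h4.trans (le_of_eq ?_)
    rw [mul_div_assoc, ← Real.rpow_sub (by norm_num)]
    congr 2
    ring
  · refine Real.rpow_le_one_of_one_le_of_nonpos (by norm_num) ?_
    have := mul_nonneg hx0 hX
    linarith
  · refine (Pr_mono (pl_law d hP hw).nonneg fun r hr h => ?_).trans h3
    obtain ⟨-, hr2⟩ := pl_supp d hP hr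
    show Pr (d.pl r) _ < p0
    rw [pl_eq d hr2]
    exact h

/-- The events which are avoided. -/
structure Ok (n : ℕ) (δ ν x0 x1 p0 dd : ℝ) (w : d.Om) : Prop where
  tt : TT d n δ ν w
  dg : Deg d x1 (p0 / 16) w
  dgf : d.fm n w {a | ¬ Deg d x1 (p0 / 16) a} ≤ dd / 32
  nc : ¬ Cst d x0 p0 w
  ncl : Pr (d.pl w) {r | Cst d x0 p0 r} ≤ 1 / 2

/-- The fine samples. -/
theorem fine_at {A : ℕ} (hok : d.OK A) {n b B : ℕ} {δ ν x0 x1 p0 dd : ℝ} (h0 : 0 < p0)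
    (hp : p0 ≤ 1) (hx0 : 0 ≤ x0) (hn : 1 ≤ n) (hb : b = 3 * n + 1) (hδ : δ ≤ dd / 32)
    (hB : B + 3 * n + 4 + x0 * d.X ≤ x1 * d.X) {w : d.Om} (hw : 0 < d.P w)
    (h : Ok d n δ ν x0 x1 p0 dd w) {m : Fin 2 → ℝ} (hm : U m)
    (h1 : Pr (d.pl w) {ρ | (2 : ℝ) ^ (-(x1 * d.X)) ≤
      |∑ i, m i * (d.S (d.T ρ) i - d.S (d.T w) i)|} < p0 / 16) :
    Pr (ker d true n w) {s | (∃ i, (2 : ℝ) ^ b < |d.chi (d.T w) (d.T s) i|) ∨
      (2 : ℝ) ^ (-(B : ℤ)) < |∑ i, m i * d.chi (d.T w) (d.T s) i|} ≤ dd / 16 := by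
  classical
  have hP := hok.law
  have hl := ker_law d hP hw hn true
  have h2 := h.dgf
  rw [← Pr_ker_true] at h2
  refine (Pr_mono hl.nonneg (F := {a | |d.th (d.T a) - d.th (d.T w)| < (2 : ℝ) ^ (-(3 * (n : ℤ)))} ∪
    {a | ¬ Deg d x1 (p0 / 16) a}) fun s hs hb' => ?_).trans
    ((Pr_union_le hl.nonneg _ _).trans (by linarith [h.tt.1]))
  by_contra hcon
  obtain ⟨hsP, hsL⟩ := ker_supp d hP hs
  have k1 : (2 : ℝ) ^ (-(3 * (n : ℤ))) ≤ |d.th (d.T s) - d.th (d.T w)| := by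
    by_contra k
    exact hcon (Or.inl (not_le.1 k))
  have k2 : Deg d x1 (p0 / 16) s := by
    by_contra k
    exact hcon (Or.inr k)
  obtain ⟨m', hm', h3⟩ := k2
  have k3 := b1_at d hok h0 hp hx0 hw hsL hm hm' h1 h3 h.ncl
  have kp : (0 : ℝ) < (2 : ℝ) ^ (-(3 * (n : ℤ))) := by positivity
  rcases hb' with ⟨i, hi⟩ | hi
  · have k4 := chi_le d hok (d.T w) (d.T s) kp k1 i
    rw [zpow_neg, div_inv_eq_mul] at k4
    have k5 : (2 : ℝ) * (2 : ℝ) ^ (3 * (n : ℤ)) = (2 : ℝ) ^ b := by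
      rw [hb, show (3 * (n : ℤ)) = ((3 * n : ℕ) : ℤ) by push_cast; ring, zpow_natCast, pow_succ]
      ring
    linarith
  · rw [chi_comb, lt_div_iff₀ (lt_of_lt_of_le kp k1)] at hi
    have k6 : (2 : ℝ) ^ (-(B : ℤ)) * (2 : ℝ) ^ (-(3 * (n : ℤ))) <
        10 * (2 : ℝ) ^ (-((x1 - x0) * d.X)) :=
      lt_of_le_of_lt (mul_le_mul_of_nonneg_left k1 (by positivity)) (lt_of_lt_of_le hi k3)
    have k7 : 10 * (2 : ℝ) ^ (-((x1 - x0) * d.X)) ≤ (2 : ℝ) ^ (-(B : ℤ)) *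
        (2 : ℝ) ^ (-(3 * (n : ℤ))) := by
      rw [← zpow_add₀ (by norm_num), zpow_rpow]
      calc 10 * (2 : ℝ) ^ (-((x1 - x0) * d.X)) ≤ (2 : ℝ) ^ (4 : ℝ) *
            (2 : ℝ) ^ (-((x1 - x0) * d.X)) := by
            refine mul_le_mul_of_nonneg_right ?_ (by positivity)
            norm_num
        _ = (2 : ℝ) ^ (4 + -((x1 - x0) * d.X)) := by rw [Real.rpow_add (by norm_num)]
        _ ≤ _ := by
            refine Real.rpow_le_rpow_of_exponent_le (by norm_num) ?_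
            push_cast
            linarith
    linarith

/-- The coarse samples. -/
theorem coarse_at {A : ℕ} (hok : d.OK A) {n a B : ℕ} {δ ν x0 x1 p0 dd : ℝ} (h0 : 0 < p0)
    (hx0 : x0 * d.X ≤ a) (hνa : ν * d.X + 1 ≤ a) (hδ : δ ≤ p0 / 32) (hn : 1 ≤ n)
    (hB : B + ν * d.X ≤ x1 * d.X) {w : d.Om} (hw : 0 < d.P w)
    (h : Ok d n δ ν x0 x1 p0 dd w) {m : Fin 2 → ℝ}
    (h1 : Pr (d.pl w) {ρ | (2 : ℝ) ^ (-(x1 * d.X)) ≤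
      |∑ i, m i * (d.S (d.T ρ) i - d.S (d.T w) i)|} < p0 / 16) :
    p0 / 4 ≤ Pr (ker d false n w) {t | (∃ i, (2 : ℝ) ^ (-(a : ℤ)) ≤ |d.chi (d.T w) (d.T t) i|) ∧
      (∀ i, |d.chi (d.T w) (d.T t) i| ≤ 2 ^ a) ∧
      |∑ i, m i * d.chi (d.T w) (d.T t) i| ≤ (2 : ℝ) ^ (-(B : ℤ))} := by
  have hP := hok.law
  have h2 := h.tt.2
  have h3 : p0 ≤ Pr (ker d false n w)
      {ρ | ∃ i, (2 : ℝ) ^ (-(x0 * d.X)) ≤ |d.S (d.T ρ) i - d.S (d.T w) i|} := by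
    rw [ker_false]
    exact not_lt.1 h.nc
  rw [← ker_false d n] at h1
  have h4 := Geos.Pr_sub3 (ker_law d hP hw hn false).nonneg _ _ _
    {t | (∃ i, (2 : ℝ) ^ (-(a : ℤ)) ≤ |d.chi (d.T w) (d.T t) i|) ∧
      (∀ i, |d.chi (d.T w) (d.T t) i| ≤ 2 ^ a) ∧
      |∑ i, m i * d.chi (d.T w) (d.T t) i| ≤ (2 : ℝ) ^ (-(B : ℤ))} h3 h2 h1.le ?_
  · linarith
  rintro ρ ⟨i, hi⟩ k1 k2
  have k3 : (2 : ℝ) ^ (-(ν * d.X)) ≤ |d.th (d.T ρ) - d.th (d.T w)| := not_lt.1 k1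
  have k4 : |∑ i, m i * (d.S (d.T ρ) i - d.S (d.T w) i)| < (2 : ℝ) ^ (-(x1 * d.X)) := not_le.1 k2
  have k0 : 0 < (2 : ℝ) ^ (-(ν * d.X)) := Real.rpow_pos_of_pos (by norm_num) _
  have k5 := th_diff_le d hok (d.T w) (d.T ρ)
  have k6 := lt_of_lt_of_le k0 k3
  refine ⟨⟨i, ?_⟩, fun i => ?_, ?_⟩
  · have e : |d.chi (d.T w) (d.T ρ) i| = |d.S (d.T ρ) i - d.S (d.T w) i| /
        |d.th (d.T ρ) - d.th (d.T w)| := by
      unfold Dat.chi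
      rw [abs_div]
    rw [e, le_div_iff₀ k6]
    have k7 : (2 : ℝ) ^ (-(a : ℤ)) ≤ (2 : ℝ) ^ (-(x0 * d.X)) := by
      rw [zpow_rpow]
      refine Real.rpow_le_rpow_of_exponent_le (by norm_num) ?_
      push_cast
      linarith
    have k8 : (0 : ℝ) ≤ (2 : ℝ) ^ (-(a : ℤ)) := by positivity
    calc (2 : ℝ) ^ (-(a : ℤ)) * |d.th (d.T ρ) - d.th (d.T w)| ≤ (2 : ℝ) ^ (-(a : ℤ)) * 1 :=
          mul_le_mul_of_nonneg_left k5 k8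
      _ ≤ _ := by rw [mul_one]; exact k7.trans hi
  · refine (chi_le d hok (d.T w) (d.T ρ) k0 k3 i).trans ?_
    rw [Real.rpow_neg (by norm_num), div_inv_eq_mul, ← Real.rpow_natCast 2 a]
    calc (2 : ℝ) * 2 ^ (ν * d.X) = 2 ^ (ν * d.X + 1) := by
          rw [Real.rpow_add (by norm_num), Real.rpow_one]
          ring
      _ ≤ _ := Real.rpow_le_rpow_of_exponent_le (by norm_num) hνa
  · rw [chi_comb, div_le_iff₀ k6]
    refine k4.le.trans ?_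
    calc (2 : ℝ) ^ (-(x1 * d.X)) ≤ (2 : ℝ) ^ (-(B : ℤ)) * (2 : ℝ) ^ (-(ν * d.X)) := by
          rw [zpow_rpow, ← Real.rpow_add (by norm_num)]
          refine Real.rpow_le_rpow_of_exponent_le (by norm_num) ?_
          push_cast
          linarith
      _ ≤ _ := mul_le_mul_of_nonneg_left k3 (by positivity)

/-- The inner statement of GEOD. -/
def GD (dd p₁ q₀ : ℝ) (C : ℕ) : Prop :=
    ∀ (S T : Fin 2 → Type) [∀ k, Fintype (S k)] [∀ k, Fintype (T k)] (μ : ∀ k, S k → ℝ)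
      (ν : ∀ k, T k → ℝ) (χ : ∀ k, S k → Fin 2 → ℝ) (ψ : ∀ k, T k → Fin 2 → ℝ)
      (n : Fin 2 → Fin 2 → ℝ) (a b B : ℕ), (∀ k, IsLaw (μ k)) → (∀ k, IsLaw (ν k)) →
      1 ≤ a → 1 ≤ b → C * (a + b) ≤ B →
      (∀ k, (∀ i, |n k i| ≤ 1) ∧ ∃ i, |n k i| = 1) →
      (2 : ℝ) ^ (-(a : ℤ)) ≤ |n 0 0 * n 1 1 - n 0 1 * n 1 0| →
      (∀ k, Pr (μ k) {s | (∃ i, (2 : ℝ) ^ b < |χ k s i|) ∨
        (2 : ℝ) ^ (-(B : ℤ)) < |∑ i, n k i * χ k s i|} ≤ dd / 16) →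
      (∀ k, p₁ ≤ Pr (ν k) {t | (∃ i, (2 : ℝ) ^ (-(a : ℤ)) ≤ |ψ k t i|) ∧
        (∀ i, |ψ k t i| ≤ 2 ^ a) ∧ |∑ i, n k i * ψ k t i| ≤ (2 : ℝ) ^ (-(B : ℤ))}) →
      let ok : (Fin 2 → ℝ) → (Fin 2 → ℝ) → Prop := fun p q =>
        (∃ M, ZOK (C * (a + b)) M ∧ zc M p = Pi.single 0 1 ∧ zc M q = Pi.single 1 1) ∧
        ∀ M, zc M p = Pi.single 0 1 → zc M q = Pi.single 1 1 → ∀ k,
          Pr (μ k) {s | ∃ i, (2 : ℝ) ^ 2 < |zc M (χ k s) i|} ≤ dd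
      q₀ ≤ Pr (fun w : S 0 × S 1 => μ 0 w.1 * μ 1 w.2) {w | ok (χ 0 w.1) (χ 1 w.2)} ∨
      q₀ ≤ Pr (fun w : S 0 × T 1 => μ 0 w.1 * ν 1 w.2) {w | ok (χ 0 w.1) (ψ 1 w.2)} ∨
      q₀ ≤ Pr (fun w : T 0 × S 1 => ν 0 w.1 * μ 1 w.2) {w | ok (ψ 0 w.1) (χ 1 w.2)} ∨
      q₀ ≤ Pr (fun w : T 0 × T 1 => ν 0 w.1 * ν 1 w.2) {w | ok (ψ 0 w.1) (ψ 1 w.2)}

theorem geod_at {A : ℕ} (hok : d.OK A) {n a b B C : ℕ} {δ ν x0 x1 p0 dd q : ℝ} (h0 : 0 < p0)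
    (hp : p0 ≤ 1) (hx00 : 0 ≤ x0) (hG : GD dd (p0 / 4) q C) (hn : 1 ≤ n) (ha1 : 1 ≤ a)
    (hb : b = 3 * n + 1) (hx0 : x0 * d.X + 2 ≤ a) (hνa : ν * d.X + 1 ≤ a) (hCB : C * (a + b) ≤ B)
    (hB : B + 3 * n + 4 + x0 * d.X ≤ x1 * d.X) (hB' : B + ν * d.X ≤ x1 * d.X)
    (hδ : δ ≤ dd / 32) (hδ' : δ ≤ p0 / 32) {ω w w' : d.Om}
    (hw : 0 < d.P w) (hw' : 0 < d.P w') (hpw : d.pt w = d.pt ω) (hpw' : d.pt w' = d.pt ω)
    (h : Ok d n δ ν x0 x1 p0 dd w) (h' : Ok d n δ ν x0 x1 p0 dd w') {m : Fin 2 → ℝ} (hm : U m)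
    (h1 : Pr (d.pl w) {ρ | (2 : ℝ) ^ (-(x1 * d.X)) ≤
      |∑ i, m i * (d.S (d.T ρ) i - d.S (d.T w) i)|} < p0 / 16)
    (h2 : p0 / 2 ≤ Pr (d.pl w') {ρ | (2 : ℝ) ^ (-(x0 * d.X)) ≤
      |∑ i, m i * (d.S (d.T ρ) i - d.S (d.T ω) i)|}) :
    okl d n (C * (a + b)) dd ![true, true] q (d.T ω) w w' ∨
    okl d n (C * (a + b)) dd ![true, false] q (d.T ω) w w' ∨
    okl d n (C * (a + b)) dd ![false, true] q (d.T ω) w w' ∨
    okl d n (C * (a + b)) dd ![false, false] q (d.T ω) w w' := by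
  have hP := hok.law
  have hX : (0 : ℝ) ≤ d.X := Nat.cast_nonneg _
  have hTw : d.T w = d.T ω := (Prod.ext_iff.1 (Prod.ext_iff.1 hpw).2).2
  have hTw' : d.T w' = d.T ω := (Prod.ext_iff.1 (Prod.ext_iff.1 hpw').2).2
  obtain ⟨m', hm', h3⟩ := h'.dg
  have hxx : x0 * d.X + 1 ≤ x1 * d.X := by
    have e1 : (0 : ℝ) ≤ B := Nat.cast_nonneg _
    have e2 : (0 : ℝ) ≤ n := Nat.cast_nonneg _
    linarith
  have hb2 := B12.b2 (pl_law d hP hw') (fun r => d.S (d.T r)) (fun r i => hok.hS _ i)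
    (d.S (d.T ω)) (fun i => hok.hS _ i) m m' hm hm' p0 ((2 : ℝ) ^ (-(x0 * d.X)))
    ((2 : ℝ) ^ (-(x1 * d.X))) h0 (by positivity) ?_ h2 (by rw [← hTw']; exact h3)
  · have f1 := fine_at d hok h0 hp hx00 hn hb hδ hB hw h hm h1
    have f2 := fine_at d hok h0 hp hx00 hn hb hδ hB hw' h' hm' h3
    have g1 := coarse_at d hok (a := a) h0 (by linarith) hνa hδ' hn hB' hw h h1
    have g2 := coarse_at d hok (a := a) h0 (by linarith) hνa hδ' hn hB' hw' h' h3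
    rw [hTw] at f1 g1
    rw [hTw'] at f2 g2
    exact hG (fun _ => d.Om) (fun _ => d.Om) ![ker d true n w, ker d true n w']
      ![ker d false n w, ker d false n w'] (fun _ s => d.chi (d.T ω) (d.T s))
      (fun _ s => d.chi (d.T ω) (d.T s)) ![m, m'] a b B
      (Fin.forall_fin_two.2 ⟨ker_law d hP hw hn true, ker_law d hP hw' hn true⟩)
      (Fin.forall_fin_two.2 ⟨ker_law d hP hw hn false, ker_law d hP hw' hn false⟩)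
      ha1 (by omega) hCB (Fin.forall_fin_two.2 ⟨hm, hm'⟩)
      (by
        refine le_trans ?_ hb2
        have e : (2 : ℝ) ^ (-(x0 * d.X)) / 4 = (2 : ℝ) ^ (-(x0 * d.X) - 2) := by
          rw [Real.rpow_sub (by norm_num)]
          norm_num
        rw [e, zpow_rpow]
        refine Real.rpow_le_rpow_of_exponent_le (by norm_num) ?_
        push_cast
        linarith)
      (Fin.forall_fin_two.2 ⟨f1, f2⟩) (Fin.forall_fin_two.2 ⟨g1, g2⟩)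
  · have e : 2 * (2 : ℝ) ^ (-(x1 * d.X)) = (2 : ℝ) ^ (1 + -(x1 * d.X)) := by
      rw [Real.rpow_add (by norm_num), Real.rpow_one]
    rw [e]
    refine Real.rpow_le_rpow_of_exponent_le (by norm_num) ?_
    linarith

/-! ### the base -/

theorem rev_markov {Ω : Type} [Fintype Ω] {q : Ω → ℝ} (hq : IsLaw q) (f : Ω → ℝ)
    (hf1 : ∀ ω, 0 < q ω → f ω ≤ 1) {p : ℝ} (hp : 0 ≤ p) (h : p ≤ ∑ ω, q ω * f ω) :
    p / 2 ≤ Pr q {ω | p / 2 ≤ f ω} := by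
  classical
  have h1 : ∑ ω, q ω * f ω ≤ ∑ ω, ((if ω ∈ {ω | p / 2 ≤ f ω} then q ω else 0) + p / 2 * q ω) := by
    refine Finset.sum_le_sum fun ω _ => ?_
    rcases (hq.nonneg ω).eq_or_lt with h0 | h0
    · rw [← h0]
      simp
    by_cases hω : ω ∈ {ω | p / 2 ≤ f ω}
    · rw [if_pos hω]
      have := hf1 ω h0
      nlinarith
    · rw [if_neg hω]
      have h2 : f ω < p / 2 := not_le.1 hω
      nlinarith
  rw [Finset.sum_add_distrib, ← Finset.mul_sum, hq.sum_one, ← Pool.KAF.Pr_eq] at h1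
  linarith

/-- The good triples. -/
def Z3 (n : ℕ) (δ ν x0 x1 p0 dd : ℝ) : Set (d.Om × (d.Om × d.Om)) :=
  {v | Ok d n δ ν x0 x1 p0 dd v.2.1 ∧ Ok d n δ ν x0 x1 p0 dd v.2.2 ∧ ∃ m, U m ∧
    Pr (d.pl v.2.1) {ρ | (2 : ℝ) ^ (-(x1 * d.X)) ≤
      |∑ i, m i * (d.S (d.T ρ) i - d.S (d.T v.2.1) i)|} < p0 / 16 ∧
    p0 / 2 ≤ Pr (d.pl v.2.2) {ρ | (2 : ℝ) ^ (-(x0 * d.X)) ≤
      |∑ i, m i * (d.S (d.T ρ) i - d.S (d.T v.1) i)|}}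

theorem Pr_le_one' {Ω : Type} [Fintype Ω] {q : Ω → ℝ} (hq : IsLaw q) (E : Set Ω) : Pr q E ≤ 1 := by
  have h1 := B12.Pr_compl hq E
  have h2 : 0 ≤ Pr q {r | r ∉ E} := Pr_nn hq.nonneg _
  linarith

theorem z3_ge (hP : IsLaw d.P) {n : ℕ} {δ ν x0 x1 p0 dd ε : ℝ} (h0 : 0 < p0)
    (hp : p0 ≤ 1) (hB : Pr d.P {w | ¬ Ok d n δ ν x0 x1 p0 dd w} ≤ p0 / 32) (hε : ε ≤ 1 / 4)
    (h6 : d.H6b x0 p0 ε) : p0 / 16 ≤ Pr (P3 d) (Z3 d n δ ν x0 x1 p0 dd) := by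
  classical
  set Bad : Set d.Om := {w | ¬ Ok d n δ ν x0 x1 p0 dd w} with hBad
  set E6 : Set d.Om := {ω | ∃ n : Fin 2 → ℝ, (∀ i, |n i| ≤ 1) ∧ (∃ i, |n i| = 1) ∧
    ∑ ω', d.pp ω ω' * Pr (d.pl ω')
      {ρ | (2 : ℝ) ^ (-(x0 * d.X)) ≤ |∑ i, n i * (d.S (d.T ρ) i - d.S (d.T ω) i)|} < p0} with hE6
  have h6' : Pr d.P E6 ≤ ε := h6
  have h1 : Pr d.P {ω | p0 / 8 < Pr (d.pp ω) Bad} ≤ 1 / 4 := by
    refine (pp_markov d hP Bad (by positivity)).trans ?_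
    rw [div_le_iff₀ (by positivity)]
    linarith
  have hA : (1 : ℝ) / 2 ≤ Pr d.P {ω | ω ∉ {ω | p0 / 8 < Pr (d.pp ω) Bad} ∪ E6} := by
    rw [B12.Pr_compl hP]
    have := Pr_union_le hP.nonneg {ω | p0 / 8 < Pr (d.pp ω) Bad} E6
    linarith
  have h2 := Pr_fib_ge hP.nonneg (fun ω (w : d.Om × d.Om) => d.pp ω w.1 * d.pp ω w.2)
    (fun ω hω w => mul_nonneg ((pp_law d hP hω).nonneg _) ((pp_law d hP hω).nonneg _))
    {ω | ω ∉ {ω | p0 / 8 < Pr (d.pp ω) Bad} ∪ E6} (Z3 d n δ ν x0 x1 p0 dd) (x := 1 / 2)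
    (y := p0 / 8) (by positivity) hA ?_
  · refine le_trans (by linarith) h2
  intro ω hω hω0
  have hq := pp_law d hP hω0
  have k1 : Pr (d.pp ω) Bad ≤ p0 / 8 := by
    by_contra k
    exact hω (Or.inl (not_le.1 k))
  have k2 : ω ∉ E6 := fun k => hω (Or.inr k)
  have k3 : (1 : ℝ) / 2 ≤ Pr (d.pp ω) {w | w ∉ Bad} := by
    rw [B12.Pr_compl hq]
    linarith
  have h3 := Pr_fib_ge hq.nonneg (fun (_ : d.Om) (w' : d.Om) => d.pp ω w')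
    (fun _ _ w' => hq.nonneg w') {w | w ∉ Bad} {w | (ω, w) ∈ Z3 d n δ ν x0 x1 p0 dd}
    (x := 1 / 2) (y := p0 / 4) (by positivity) k3 ?_
  · exact le_trans (by linarith) h3
  intro w hw _
  have hOk : Ok d n δ ν x0 x1 p0 dd w := by
    by_contra k
    exact hw k
  obtain ⟨m, hm, hm1⟩ := hOk.dg
  have k4 : p0 ≤ ∑ ω', d.pp ω ω' * Pr (d.pl ω')
      {ρ | (2 : ℝ) ^ (-(x0 * d.X)) ≤ |∑ i, m i * (d.S (d.T ρ) i - d.S (d.T ω) i)|} := by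
    by_contra k
    exact k2 ⟨m, hm.1, hm.2, not_le.1 k⟩
  have k5 := rev_markov hq (fun ω' => Pr (d.pl ω')
      {ρ | (2 : ℝ) ^ (-(x0 * d.X)) ≤ |∑ i, m i * (d.S (d.T ρ) i - d.S (d.T ω) i)|})
      (fun ω' hω' => Pr_le_one' (pl_law d hP ((cond_pos_iff hP.nonneg _ _ _).1 hω').1) _) h0.le k4
  have k6 := Geos.Pr_sub3 hq.nonneg _ Bad ∅
    {w' | ((ω, (w, w')) : d.Om × (d.Om × d.Om)) ∈ Z3 d n δ ν x0 x1 p0 dd} (y₂ := 0) k5 k1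
    (by rw [Pool.KAF.Pr_eq]; simp) ?_
  · exact le_trans (by linarith) k6
  intro w' h4 h5 _
  have hOk' : Ok d n δ ν x0 x1 p0 dd w' := by
    by_contra k
    exact h5 k
  exact ⟨hOk, hOk', m, hm, hm1, h4⟩

theorem pig4 {Ω : Type} [Fintype Ω] {q : Ω → ℝ} (hq : ∀ ω, 0 ≤ q ω) (Z A B C D : Set Ω) {x : ℝ}
    (hx : 4 * x ≤ Pr q Z) (h : ∀ ω ∈ Z, 0 < q ω → ω ∈ A ∨ ω ∈ B ∨ ω ∈ C ∨ ω ∈ D) :
    x ≤ Pr q A ∨ x ≤ Pr q B ∨ x ≤ Pr q C ∨ x ≤ Pr q D := by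
  by_contra hcon
  push Not at hcon
  obtain ⟨h1, h2, h3, h4⟩ := hcon
  have h5 : Pr q Z ≤ Pr q (A ∪ B ∪ (C ∪ D)) := by
    refine Pr_mono hq fun ω hω hZ => ?_
    rcases h ω hZ hω with h | h | h | h
    · exact Or.inl (Or.inl h)
    · exact Or.inl (Or.inr h)
    · exact Or.inr (Or.inl h)
    · exact Or.inr (Or.inr h)
  have h6 := Pr_union_le hq (A ∪ B) (C ∪ D)
  have h7 := Pr_union_le hq A B
  have h8 := Pr_union_le hq C D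
  linarith

/-- Case B: few lines are not degenerate. -/
theorem caseB {A : ℕ} (hok : d.OK A) {n a b B C : ℕ} {δ ν x0 x1 p0 dd q ε : ℝ} (h0 : 0 < p0)
    (hp : p0 ≤ 1) (hx00 : 0 ≤ x0) (hG : GD dd (p0 / 4) q C) (hn : 1 ≤ n) (ha1 : 1 ≤ a)
    (hb : b = 3 * n + 1) (hx0 : x0 * d.X + 2 ≤ a) (hνa : ν * d.X + 1 ≤ a) (hνn : ν * d.X ≤ 3 * n)
    (hCB : C * (a + b) ≤ B)
    (hB : B + 3 * n + 4 + x0 * d.X ≤ x1 * d.X) (hB' : B + ν * d.X ≤ x1 * d.X)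
    (hδ : δ ≤ dd / 32) (hδ' : δ ≤ p0 / 32) (hδq : 0 ≤ q - 2 * δ)
    (hBad : Pr d.P {w | ¬ Ok d n δ ν x0 x1 p0 dd w} ≤ p0 / 32) (hε : ε ≤ 1 / 4)
    (h6 : d.H6b x0 p0 ε) : ∃ s : Fin 2 → Bool, p0 / 64 * (q - 2 * δ) ≤ Pr (QD d s n)
      (Good d Prod.fst (fun k v => (v.2 k).1) (fun k v => (v.2 k).2) n 2 (C * (a + b)) dd) := by
  have hP := hok.law
  set Y : (Fin 2 → Bool) → Set (d.Om × (d.Om × d.Om)) := fun s => {v | TT d n δ ν v.2.1 ∧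
    TT d n δ ν v.2.2 ∧ okl d n (C * (a + b)) dd s q (d.T v.1) v.2.1 v.2.2} with hY
  have h1 := z3_ge d hP h0 hp hBad hε h6
  have h2 := pig4 (P3_nonneg d hP) (Z3 d n δ ν x0 x1 p0 dd) (Y ![true, true]) (Y ![true, false])
    (Y ![false, true]) (Y ![false, false]) (x := p0 / 64) (by linarith) ?_
  · have h3 : ∃ s, p0 / 64 ≤ Pr (P3 d) (Y s) := by
      rcases h2 with h | h | h | h
      · exact ⟨_, h⟩
      · exact ⟨_, h⟩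
      · exact ⟨_, h⟩
      · exact ⟨_, h⟩
    obtain ⟨s, hs⟩ := h3
    exact ⟨s, goodD d hok hn hνn s (Y s) hs (fun v hv _ => hv) hδq⟩
  rintro ⟨ω, w, w'⟩ ⟨hO, hO', m, hm, hm1, hm2⟩ hv
  obtain ⟨hω, ⟨hw, hpw⟩, ⟨hw', hpw'⟩⟩ := P3_supp d hP hv
  simp only at hO hO' hm1 hm2 hω hw hpw hw' hpw'
  rcases geod_at d hok h0 hp hx00 hG hn ha1 hb hx0 hνa hCB hB hB' hδ hδ' hw hw' hpw hpw' hO hO' hm
    hm1 hm2 with h | h | h | h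
  · exact Or.inl ⟨hO.tt, hO'.tt, h⟩
  · exact Or.inr (Or.inl ⟨hO.tt, hO'.tt, h⟩)
  · exact Or.inr (Or.inr (Or.inl ⟨hO.tt, hO'.tt, h⟩))
  · exact Or.inr (Or.inr (Or.inr ⟨hO.tt, hO'.tt, h⟩))

end

end Pool.OCV.GeoA
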