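import Pool.Agent.H66.OCV.CaseB
import Pool.Agent.H98.KVA.IDX

/-!
# Theorem OCV, row GEO

`geo_of : GEOofStmt`, `geo_thm : TIMStmt 2 → SCHStmt 2 → GEOStmt`.
-/

set_option autoImplicit false

namespace Pool.OCV.GeoA

open Finset Real Pool.OCM Pool.OCM.Bas
open Pool.Agent.H32.Dense Pool.STK Pool.KAF Pool.Agent.H49.Ent

/-- The inner statement of GEOS. -/
def GS (dd p₁ q₀ : ℝ) (C : ℕ) : Prop :=
    ∀ (S T : Type) [Fintype S] [Fintype T] (μ : S → ℝ) (ν : T → ℝ) (χ : S → Fin 2 → ℝ)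
      (ψ : T → Fin 2 → ℝ) (a b : ℕ), IsLaw μ → IsLaw ν → 1 ≤ a → 1 ≤ b →
      Pr μ {s | ∃ i, (2 : ℝ) ^ b < |χ s i|} ≤ dd / 16 →
      (∀ n : Fin 2 → ℝ, (∀ i, |n i| ≤ 1) → (∃ i, |n i| = 1) →
        p₁ ≤ Pr ν {t | (2 : ℝ) ^ (-(a : ℤ)) ≤ |∑ i, n i * ψ t i| ∧ ∀ i, |ψ t i| ≤ 2 ^ a}) →
      let ok : (Fin 2 → ℝ) → (Fin 2 → ℝ) → Prop := fun p q =>
        (∃ M, ZOK (C * (a + b)) M ∧ zc M p = Pi.single 0 1 ∧ zc M q = Pi.single 1 1) ∧
        ∀ M, zc M p = Pi.single 0 1 → zc M q = Pi.single 1 1 →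
          Pr μ {s | ∃ i, (2 : ℝ) ^ 2 < |zc M (χ s) i|} ≤ dd
      q₀ ≤ Pr (fun w : T × T => ν w.1 * ν w.2) {w | ok (ψ w.1) (ψ w.2)} ∨
      q₀ ≤ Pr (fun w : S × S => μ w.1 * μ w.2) {w | ok (χ w.1) (χ w.2)} ∨
      q₀ ≤ Pr (fun w : S × T => μ w.1 * ν w.2) {w | ok (χ w.1) (ψ w.2)}

section

variable (d : Dat 2)

/-- Case A: many lines are not degenerate. -/
theorem caseA {A : ℕ} (hok : d.OK A) {n a C : ℕ} {δ ν x1 p1 dd q y : ℝ}
    (hG : GS dd (p1 / 2) q C) (hn : 1 ≤ n) (ha : 1 ≤ a) (hx1 : x1 * d.X ≤ a)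
    (hνa : ν * d.X + 1 ≤ a) (hνn : ν * d.X ≤ 3 * n) (hδ : δ ≤ dd / 16) (hδ2 : δ ≤ p1 / 2)
    (hδq : 0 ≤ q - 2 * δ) (hND : y ≤ Pr d.P {ω | ¬ Deg d x1 p1 ω})
    (hNT : Pr d.P {ω | ¬ TT d n δ ν ω} ≤ y / 2) : ∃ s : Fin 2 → Bool,
    y / 8 * (q - 2 * δ) ≤ Pr (QS d s n) (Good d Prod.fst (fun _ v => v.1) (fun k v => v.2 k) n 2
      (C * (a + (3 * n + 1))) dd) := by
  have hP := hok.law
  set Y : (Fin 2 → Bool) → Set d.Om := fun s =>
    {ω | TT d n δ ν ω ∧ okk d n (C * (a + (3 * n + 1))) dd s q ω} with hY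
  have h1 := Geos.Pr_sub3 hP.nonneg _ {ω | ¬ TT d n δ ν ω} ∅
    {ω | ¬ Deg d x1 p1 ω ∧ TT d n δ ν ω} (y₂ := 0) hND hNT (by rw [Pool.KAF.Pr_eq]; simp)
    (fun ω h2 h3 _ => ⟨h2, not_not.1 h3⟩)
  have h2 := pig4 hP.nonneg {ω | ¬ Deg d x1 p1 ω ∧ TT d n δ ν ω} (Y ![false, false])
    (Y ![true, true]) (Y ![true, false]) (Y ![true, false]) (x := y / 8) (by linarith only [h1]) ?_
  · have h3 : ∃ s, y / 8 ≤ Pr d.P (Y s) := by
      rcases h2 with h | h | h | h
      · exact ⟨_, h⟩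
      · exact ⟨_, h⟩
      · exact ⟨_, h⟩
      · exact ⟨_, h⟩
    obtain ⟨s, hs⟩ := h3
    exact ⟨s, goodS d hok hn hνn s (Y s) hs (fun v hv => hv) hδq⟩
  rintro ω ⟨hD, hT⟩ hω
  rcases geos_at d hok hn hG ha hx1 hνa hδ hδ2 hω hT hD with h | h | h
  · exact Or.inl ⟨hT, h⟩
  · exact Or.inr (Or.inl ⟨hT, h⟩)
  · exact Or.inr (Or.inr (Or.inl ⟨hT, h⟩))

theorem bad_le (hP : IsLaw d.P) {n : ℕ} (hn : 1 ≤ n) {δ ν x0 x1 p0 dd : ℝ} (hdd : 0 < dd) :
    Pr d.P {w | ¬ Ok d n δ ν x0 x1 p0 dd w} ≤ Pr d.P {ω | ¬ TT d n δ ν ω} +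
      (Pr d.P {ω | ¬ Deg d x1 (p0 / 16) ω} + Pr d.P {ω | ¬ Deg d x1 (p0 / 16) ω} / (dd / 32)) +
      (Pr d.P {ω | Cst d x0 p0 ω} + Pr d.P {ω | Cst d x0 p0 ω} / (1 / 2)) := by
  have h1 := ker_markov d hP hn true {ω | ¬ Deg d x1 (p0 / 16) ω} (x := dd / 32) (by positivity)
  have h2 := ker_markov d hP hn false {ω | Cst d x0 p0 ω} (x := 1 / 2) (by norm_num)
  have h3 : Pr d.P {w | ¬ Ok d n δ ν x0 x1 p0 dd w} ≤ Pr d.P ({ω | ¬ TT d n δ ν ω} ∪
      ({ω | ¬ Deg d x1 (p0 / 16) ω} ∪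
        {ω | dd / 32 < Pr (ker d true n ω) {ω | ¬ Deg d x1 (p0 / 16) ω}}) ∪
      ({ω | Cst d x0 p0 ω} ∪ {ω | 1 / 2 < Pr (ker d false n ω) {ω | Cst d x0 p0 ω}})) := by
    refine Pr_mono hP.nonneg fun ω hω h => ?_
    by_contra hcon
    apply h
    refine ⟨?_, ?_, ?_, ?_, ?_⟩
    · by_contra k
      exact hcon (Or.inl (Or.inl k))
    · by_contra k
      exact hcon (Or.inl (Or.inr (Or.inl k)))
    · by_contra k
      refine hcon (Or.inl (Or.inr (Or.inr ?_)))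
      show dd / 32 < Pr (ker d true n ω) _
      rw [Pr_ker_true]
      exact not_le.1 k
    · intro k
      exact hcon (Or.inr (Or.inl k))
    · by_contra k
      refine hcon (Or.inr (Or.inr ?_))
      show 1 / 2 < Pr (ker d false n ω) _
      rw [ker_false]
      exact not_le.1 k
  have h4 := Pr_union_le hP.nonneg ({ω | ¬ TT d n δ ν ω} ∪
      ({ω | ¬ Deg d x1 (p0 / 16) ω} ∪
        {ω | dd / 32 < Pr (ker d true n ω) {ω | ¬ Deg d x1 (p0 / 16) ω}}))
      ({ω | Cst d x0 p0 ω} ∪ {ω | 1 / 2 < Pr (ker d false n ω) {ω | Cst d x0 p0 ω}})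
  have h5 := Pr_union_le hP.nonneg {ω | ¬ TT d n δ ν ω}
      ({ω | ¬ Deg d x1 (p0 / 16) ω} ∪
        {ω | dd / 32 < Pr (ker d true n ω) {ω | ¬ Deg d x1 (p0 / 16) ω}})
  have h6 := Pr_union_le hP.nonneg {ω | ¬ Deg d x1 (p0 / 16) ω}
        {ω | dd / 32 < Pr (ker d true n ω) {ω | ¬ Deg d x1 (p0 / 16) ω}}
  have h7 := Pr_union_le hP.nonneg {ω | Cst d x0 p0 ω}
    {ω | 1 / 2 < Pr (ker d false n ω) {ω | Cst d x0 p0 ω}}
  linarith only [h1, h2, h3, h4, h5, h6, h7]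

end

/-- **Row GEO.** -/
theorem geo_of : GEOofStmt := by
  intro hTIM hSCH hGEOS hGEOD p₀ uu dd hp₀ huu hdd
  set p : ℝ := min p₀ 1 with hpd
  have hp : 0 < p := lt_min hp₀ one_pos
  have hp1 : p ≤ 1 := min_le_right _ _
  have hpp : p ≤ p₀ := min_le_left _ _
  clear_value p
  obtain ⟨qS, CS, hqS, hS⟩ := hGEOS dd (p / 16 / 2) hdd (by positivity)
  obtain ⟨qD, CD, hqD, hD⟩ := hGEOD dd (p / 4) hdd (by positivity)
  have hS' : GS dd (p / 16 / 2) qS CS := hS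
  have hD' : GD dd (p / 4) qD CD := hD
  set y : ℝ := p * dd / (100 * (dd + 32)) with hy
  have hy0 : 0 < y := by positivity
  have hy1 : y + y / (dd / 32) = p / 100 := by
    rw [hy]
    field_simp
  have hy2 : y ≤ p / 100 := by
    have : 0 < y / (dd / 32) := by positivity
    linarith only [hy1, this]
  clear_value y
  set δ : ℝ := min (min (dd / 32) (p / 32)) (min (qS / 4) (qD / 4)) with hδd
  have hδ0 : 0 < δ := by
    refine lt_min (lt_min ?_ ?_) (lt_min ?_ ?_)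
    · positivity
    · positivity
    · positivity
    · positivity
  have hδ1 : δ ≤ dd / 32 := (min_le_left _ _).trans (min_le_left _ _)
  have hδ2 : δ ≤ p / 32 := (min_le_left _ _).trans (min_le_right _ _)
  have hδ3 : δ ≤ qS / 4 := (min_le_right _ _).trans (min_le_left _ _)
  have hδ4 : δ ≤ qD / 4 := (min_le_right _ _).trans (min_le_right _ _)
  clear_value δ
  exact by
   obtain ⟨R, hR⟩ := hTIM δ hδ0
   set K : ℝ := (5 * CD + 9) * (CS + 1) with hK
   have hCD0 : (0 : ℝ) ≤ CD := Nat.cast_nonneg _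
   have hCS0 : (0 : ℝ) ≤ CS := Nat.cast_nonneg _
   have hK1 : 1 ≤ K := by nlinarith
   have hK2 : 5 * (CD : ℝ) ≤ K := by nlinarith
   have hK3 : (CS : ℝ) * (4 * CD + 9) ≤ K := by nlinarith only [hp1, hy0, hy2]
   clear_value K
   set ν : ℝ := min (1 / 4) (uu / K) with hνd
   have hν0 : 0 < ν := lt_min (by norm_num) (by positivity)
   have hν4 : ν ≤ 1 / 4 := min_le_left _ _
   have hνK : ν * K ≤ uu := by
     have : ν ≤ uu / K := min_le_right _ _
     rwa [le_div_iff₀ (by linarith only [hp1, hy0, hy2, hK1])] at this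
   have hνu : ν ≤ uu := by nlinarith only [hνK, hK1, hν0]
   clear_value ν
   obtain ⟨ιT, XT, hιT, hT⟩ := hR ν (y / 4) hν0 hν4 (by positivity)
   refine ⟨ν, ν, min (y / 8 * (qS / 2)) (p / 64 * (qD / 2)), p / 400, ιT,
     max XT (⌈((R : ℝ) + 4 * CD + 10) / ν⌉₊ + 1), hν0, hνu, hν0, by positivity, by positivity, hιT, ?_⟩
   intro A d ι' hok hX hι H1 H2 H7 H6a H6b
   have hP := hok.law
   have hX1 : (1 : ℝ) ≤ d.X := by
     have : 1 ≤ d.X := le_trans (by omega) ((le_max_right _ _).trans hX)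
     exact_mod_cast this
   have hX0 : (0 : ℝ) ≤ d.X := by linarith only [hp1, hy0, hy2, hX1]
   have hνX : (R : ℝ) + 4 * CD + 10 ≤ ν * d.X := by
     have h1 : ((R : ℝ) + 4 * CD + 10) / ν ≤ d.X := by
       refine (Nat.le_ceil _).trans ?_
       have : ⌈((R : ℝ) + 4 * CD + 10) / ν⌉₊ ≤ d.X :=
         le_trans (by omega) ((le_max_right _ _).trans hX)
       exact_mod_cast this
     rw [div_le_iff₀ hν0] at h1
     rw [mul_comm ν]
     exact h1
   exact by
    have hR0 : (0 : ℝ) ≤ R := Nat.cast_nonneg _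
    have hι0 : 0 ≤ ι' := by
      have h1 := Pool.KVA.IDX.MI_nonneg hP d.T d.L d.B
      have h2 : 0 ≤ ι' * d.X := h1.trans H1.1
      by_contra hcon
      nlinarith only [h2, hp1, hcon, hy0, hy2, hX1]
    have H1' : d.H1 ιT := by
      refine ⟨H1.1.trans (mul_le_mul_of_nonneg_right hι hX0), le_trans ?_ H1.2⟩
      refine mul_le_mul_of_nonneg_right ?_ (Real.log_nonneg (by norm_num))
      nlinarith only [hι]
    obtain ⟨-, hT2, hT3⟩ := hT d A hok ((le_max_left _ _).trans hX) H1'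
    set n : ℕ := ⌊ν * d.X⌋₊ with hn
    have hn1 : (n : ℝ) ≤ ν * d.X := Nat.floor_le (by positivity)
    have hn2 : ν * d.X < n + 1 := Nat.lt_floor_add_one _
    have hRn : R ≤ n := Nat.le_floor (by linarith only [hp1, hy0, hy2, hνX])
    have hn3 : 1 ≤ n := Nat.le_floor (by push_cast; linarith only [hp1, hy0, hy2, hνX])
    have hn3' : (1 : ℝ) ≤ n := by exact_mod_cast hn3
    have hνn : ν * d.X ≤ 3 * n := by linarith only [hp1, hy0, hy2, hνX, hn2]
    have hNT := time_typ d hn hRn hn3 hP hT2 hT3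
    have h4 : ι' * 8 ≤ 20 * ι' := by linarith only [hι0]
    set x1 : ℝ := (4 * CD + 5) * ν with hx1
    have hx1X : x1 * d.X = (4 * CD + 5) * (ν * d.X) := by rw [hx1]; ring
    have hsch : ∀ s : Fin 2 → Bool,
        Sch d (QS d s n) Prod.fst (fun _ v => v.1) (fun k v => v.2 k) (20 * ι') ∧
        Sch d (QD d s n) Prod.fst (fun k v => (v.2 k).1) (fun k v => (v.2 k).2) (20 * ι') := by
      intro s
      have h5 : 4 * ((2 : ℕ) : ℝ) * ι' * d.X ≤ 20 * ι' * d.X := by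
        refine mul_le_mul_of_nonneg_right ?_ hX0
        push_cast
        linarith only [hι0]
      obtain ⟨s1, s2⟩ := hSCH A d ι' n s hok hn3 hι0 H1 H7
      exact ⟨{ s1 with
        mi := fun k => (s1.mi k).trans h5
        mn := fun k => (s1.mn k).trans h5 }, { s2 with
        mi := fun k => (s2.mi k).trans h5
        mn := fun k => (s2.mn k).trans h5 }⟩
    exact by
     by_cases hcase : y ≤ Pr d.P {ω | ¬ Deg d x1 (p / 16) ω}
     · -- case A
       have ha1 : x1 * d.X ≤ (⌈x1 * d.X⌉₊ + 1 : ℕ) := by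
         push_cast
         linarith only [hp1, hy0, hy2, Nat.le_ceil (x1 * d.X)]
       have hx1n : ν * d.X ≤ x1 * d.X := by
         rw [hx1X]
         exact le_mul_of_one_le_left (by positivity) (by linarith only [hp1, hy0, hy2])
       have ha2 : ν * d.X + 1 ≤ (⌈x1 * d.X⌉₊ + 1 : ℕ) := by
         push_cast
         linarith only [hx1n, Nat.le_ceil (x1 * d.X)]
       have ha3 : ((⌈x1 * d.X⌉₊ + 1 : ℕ) : ℝ) ≤ x1 * d.X + 2 := by
         push_cast
         linarith only [hp1, hy0, hy2, hνX, hx1n, Nat.ceil_lt_add_one (show 0 ≤ x1 * d.X by linarith only [hp1, hy0, hy2, hνX, hx1n])]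
       obtain ⟨s, hs⟩ := caseA d hok hS' hn3 (a := ⌈x1 * d.X⌉₊ + 1) (by omega) ha1 ha2 hνn
         (by linarith only [hδ0, hδ1]) (by linarith only [hδ2]) (by linarith only [hδ0, hδ3]) hcase (hNT.trans (by linarith only))
       refine ⟨d.Om × (Fin 2 → d.Om), inferInstance, QS d s n, Prod.fst, fun _ v => v.1,
         fun k v => v.2 k, _, (hsch s).1, ?_, le_trans ?_ hs⟩
       · push_cast at ha3 ⊢
         have e1 : (CS : ℝ) * (⌈x1 * d.X⌉₊ + 1 + (3 * n + 1)) ≤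
             CS * ((4 * CD + 9) * (ν * d.X)) := by
           refine mul_le_mul_of_nonneg_left ?_ hCS0
           rw [hx1X] at ha3 ⊢
           linarith only [hp1, hy0, hy2, hνX, hn1, ha3]
         have e2 : (CS : ℝ) * ((4 * CD + 9) * (ν * d.X)) ≤ K * (ν * d.X) := by
           rw [← mul_assoc]
           exact mul_le_mul_of_nonneg_right hK3 (by positivity)
         have e3 : K * (ν * d.X) ≤ uu * d.X := by
           rw [← mul_assoc, mul_comm K ν]
           exact mul_le_mul_of_nonneg_right hνK hX0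
         linarith only [e1, e2, e3]
       · refine (min_le_left _ _).trans (mul_le_mul_of_nonneg_left ?_ (by positivity))
         linarith only [hδ3]
     · -- case B
       have hcase' := not_le.1 hcase
       have hC : Pr d.P {ω | Cst d ν p ω} ≤ p / 400 := by
         refine (Pr_mono hP.nonneg fun ω _ h => ?_).trans H6a
         exact lt_of_lt_of_le h hpp
       have hC' : d.H6b ν p (p / 400) := by
         refine (Pr_mono hP.nonneg fun ω _ h => ?_).trans H6b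
         obtain ⟨m, m1, m2, m3⟩ := h
         exact ⟨m, m1, m2, lt_of_lt_of_le m3 hpp⟩
       have hbad := bad_le d hP hn3 (δ := δ) (ν := ν) (x0 := ν) (x1 := x1) (p0 := p) hdd
       have hbad' : Pr d.P {w | ¬ Ok d n δ ν ν x1 p dd w} ≤ p / 32 := by
         have e1 : Pr d.P {ω | ¬ Deg d x1 (p / 16) ω} / (dd / 32) ≤ y / (dd / 32) := by
           gcongr
         linarith only [hy0, hy1, hy2, hNT, hcase, hC, hbad, e1]
       have hBr : (((CD * ((n + 3) + (3 * n + 1)) : ℕ)) : ℝ) = CD * (4 * n + 4) := by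
         push_cast
         ring
       have hBn : (CD : ℝ) * (4 * n + 4) ≤ CD * (4 * (ν * d.X) + 4) := by
         refine mul_le_mul_of_nonneg_left ?_ hCD0
         linarith only [hn1]
       obtain ⟨s, hs⟩ := caseB d hok hp hp1 hν0.le hD' hn3 (a := n + 3) (b := 3 * n + 1)
         (B := CD * ((n + 3) + (3 * n + 1))) (ν := ν) (x1 := x1) (δ := δ) (by omega) rfl
         (by push_cast; linarith only [hn2]) (by push_cast; linarith only [hp1, hy0, hy2, hn2]) hνn le_rfl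
         (by rw [hBr, hx1X]; linarith only [hp1, hy0, hy2, hνX, hn1, hBn]) (by rw [hBr, hx1X]; linarith only [hp1, hy0, hy2, hνX, hBn]) hδ1 hδ2 (by linarith only [hδ0, hδ4])
         hbad' (by linarith only [hp1, hy0, hy2]) hC'
       refine ⟨d.Om × (Fin 2 → d.Om × d.Om), inferInstance, QD d s n, Prod.fst,
         fun k v => (v.2 k).1, fun k v => (v.2 k).2, _, (hsch s).2, ?_, le_trans ?_ hs⟩
       · rw [hBr]
         have e1 : (CD : ℝ) * (4 * (ν * d.X) + 4) ≤ 5 * CD * (ν * d.X) := by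
           have : (CD : ℝ) * (4 * (ν * d.X) + 4) ≤ CD * (5 * (ν * d.X)) :=
             mul_le_mul_of_nonneg_left (by linarith only [hp1, hy0, hy2, hνX]) hCD0
           linarith only [this]
         have e2 : 5 * CD * (ν * d.X) ≤ K * (ν * d.X) := mul_le_mul_of_nonneg_right hK2 (by positivity)
         have e3 : K * (ν * d.X) ≤ uu * d.X := by
           rw [← mul_assoc, mul_comm K ν]
           exact mul_le_mul_of_nonneg_right hνK hX0
         linarith only [hBn, e1, e2, e3]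
       · refine (min_le_right _ _).trans (mul_le_mul_of_nonneg_left ?_ (by positivity))
         linarith only [hδ4]

end Pool.OCV.GeoA

namespace Pool.OCV.Geos

/-- GEO from TIM and SCH. -/
theorem geo_thm (hT : TIMStmt 2) (hS : SCHStmt 2) : GEOStmt :=
  GeoA.geo_of hT hS geos_thm Pool.Agent.H1.OCV.geod_thm

end Pool.OCV.Geos
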