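import Pool.Agent.H66.OCM.Bas
import Pool.Agent.H98.OCV.Stmts

/-!
Theorem OCV, row GEOS: for one line, one of the three kinds of pairs of references is good.
-/

set_option autoImplicit false

namespace Pool.OCV.Geos

open Finset Real Pool.OCM Pool.OCM.Bas
open Pool.Agent.H32.Dense Pool.STK Pool.KAF

/-- The sequence of two vectors. -/
def zs (p q : Fin 2 → ℝ) (j : ℕ) : Fin 2 → ℝ := if j = 0 then p else q

theorem flg_one (p q : Fin 2 → ℝ) : flg (zs p q) 1 = Submodule.span ℝ {p} := by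
  rw [flg_succ, flg_zero, sup_bot_eq]
  rfl

theorem dV_bot (v : Fin 2 → ℝ) : dV (⊥ : Submodule ℝ (Fin 2 → ℝ)) v = ‖v‖ := by
  rw [dV_infDist, Submodule.bot_coe, Metric.infDist_singleton, dist_zero_right]

theorem norm_le_of {v : Fin 2 → ℝ} {b : ℕ} (h : ∀ i, |v i| ≤ 2 ^ b) : ‖v‖ ≤ 2 ^ b := by
  rw [pi_norm_le_iff_of_nonneg (by positivity)]
  exact h

theorem lt_norm_of {v : Fin 2 → ℝ} {b : ℕ} (h : ¬ ∃ i, (2 : ℝ) ^ b < |v i|) : ‖v‖ ≤ 2 ^ b := by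
  push Not at h
  exact norm_le_of h

/-- The geometry of one pair. -/
theorem pair_good (p q : Fin 2 → ℝ) (r B : ℕ) (hr : r ≤ 2) (hp : ‖p‖ ≤ 2 ^ B) (hq : ‖q‖ ≤ 2 ^ B)
    (h0 : 0 < r → ((2 : ℝ) ^ (L0 2 * (B + 1)))⁻¹ ≤ ‖p‖)
    (h0' : r = 0 → ((2 : ℝ) ^ (B + 2))⁻¹ ≤ ‖p‖)
    (h1 : 1 < r → ((2 : ℝ) ^ (2 * (L0 2 * (B + 1))))⁻¹ ≤ dV (Submodule.span ℝ {p}) q ∧ ‖q‖ ≤ ‖p‖)
    (h1' : r ≤ 1 → ((2 : ℝ) ^ (B + 2))⁻¹ ≤ dV (Submodule.span ℝ {p}) q) :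
    (∃ M, ZOK (C0 2 * (B + 1)) M ∧ zc M p = Pi.single 0 1 ∧ zc M q = Pi.single 1 1) ∧
      ∀ M, zc M p = Pi.single 0 1 → zc M q = Pi.single 1 1 → ∀ v : Fin 2 → ℝ,
        (0 < r → ‖v‖ ≤ ‖p‖) → (r = 0 → ‖v‖ ≤ ((2 : ℝ) ^ (L0 2 * (B + 1)))⁻¹) →
        (1 < r → dV (Submodule.span ℝ {p}) v ≤ dV (Submodule.span ℝ {p}) q) →
        (r = 1 → dV (Submodule.span ℝ {p}) v ≤ ((2 : ℝ) ^ (2 * (L0 2 * (B + 1))))⁻¹) →
        ∀ i, |zc M v i| ≤ 2 ^ 2 := by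
  have e0 : ∀ v, dV (flg (zs p q) 0) v = ‖v‖ := fun v => by rw [flg_zero, dV_bot]
  have e1 : ∀ v, dV (flg (zs p q) 1) v = dV (Submodule.span ℝ {p}) v := fun v => by rw [flg_one]
  have z0 : zs p q 0 = p := rfl
  have z1 : zs p q 1 = q := rfl
  obtain ⟨M, hM, hMz, hMv⟩ := basis_good (zs p q) r hr B
    (by
      intro j hj
      interval_cases j
      · exact hp
      · exact hq)
    (by
      intro j hj
      have hj2 : j < 2 := by omega
      interval_cases j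
      · rw [e0, z0, zero_add, one_mul]
        exact h0 (by omega)
      · rw [e1, z1]
        exact (h1 (by omega)).1)
    (by
      intro i j hij hjr
      have hj2 : j = 1 := by omega
      have hi0 : i = 0 := by omega
      subst hj2 hi0
      rw [e0, e0, z0, z1]
      exact (h1 (by omega)).2)
    (by
      intro j hj hj2
      interval_cases j
      · rw [e0, z0]
        exact h0' (by omega)
      · rw [e1, z1]
        exact h1' hj)
  have hMp : zc M p = Pi.single 0 1 := by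
    funext i
    have := hMz i 0
    rw [Pi.single_apply]
    exact this
  have hMq : zc M q = Pi.single 1 1 := by
    funext i
    have := hMz i 1
    rw [Pi.single_apply]
    exact this
  refine ⟨⟨M, hM, hMp, hMq⟩, ?_⟩
  intro M₂ hp2 hq2 v g0 g0' g1 g1' i
  have hz : ∀ j : Fin 2, zc M (![p, q] j) = Pi.single j 1 := by
    intro j
    fin_cases j
    · exact hMp
    · exact hMq
  have hz2 : ∀ j : Fin 2, zc M₂ (![p, q] j) = Pi.single j 1 := by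
    intro j
    fin_cases j
    · exact hp2
    · exact hq2
  rw [zc_unique hM ![p, q] hz hz2 v]
  refine hMv v ?_ ?_ i
  · intro j hj
    have hj2 : j < 2 := by omega
    interval_cases j
    · rw [e0, e0, z0]
      exact g0 (by omega)
    · rw [e1, e1, z1]
      exact g1 (by omega)
  · intro hr2
    interval_cases r
    · rw [e0, zero_add, one_mul]
      exact g0' rfl
    · rw [e1]
      exact g1' rfl

section

variable {S T : Type} [Fintype S] [Fintype T]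

/-- The probability of a set of pairs. -/
theorem Pr_pair_ge {μ : S → ℝ} {ν : T → ℝ} (hμ : IsLaw μ) (hν : IsLaw ν) (A : Set S)
    (B : S → Set T) (G : Set (S × T)) {x y : ℝ} (hy : 0 ≤ y) (hA : x ≤ Pr μ A)
    (hB : ∀ s ∈ A, 0 < μ s → y ≤ Pr ν (B s))
    (hG : ∀ s ∈ A, 0 < μ s → ∀ t ∈ B s, 0 < ν t → (s, t) ∈ G) :
    x * y ≤ Pr (fun w : S × T => μ w.1 * ν w.2) G := by
  classical
  calc x * y ≤ Pr μ A * y := mul_le_mul_of_nonneg_right hA hy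
    _ = ∑ s, (if s ∈ A then μ s else 0) * y := by rw [Pool.KAF.Pr_eq, Finset.sum_mul]
    _ ≤ ∑ s, ∑ t, (if (s, t) ∈ G then μ s * ν t else 0) := by
        refine Finset.sum_le_sum fun s _ => ?_
        rcases (hμ.nonneg s).eq_or_lt with h0 | h0
        · rw [← h0]
          simp
        by_cases hs : s ∈ A
        · rw [if_pos hs]
          calc μ s * y ≤ μ s * Pr ν (B s) := mul_le_mul_of_nonneg_left (hB s hs h0) h0.le
            _ = ∑ t, μ s * (if t ∈ B s then ν t else 0) := by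
                rw [Pool.KAF.Pr_eq, Finset.mul_sum]
            _ ≤ _ := by
                refine Finset.sum_le_sum fun t _ => ?_
                rcases (hν.nonneg t).eq_or_lt with h1 | h1
                · rw [← h1]
                  simp
                by_cases ht : t ∈ B s
                · rw [if_pos ht, if_pos (hG s hs h0 t ht h1)]
                · rw [if_neg ht, mul_zero]
                  split_ifs
                  · positivity
                  · exact le_rfl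
        · rw [if_neg hs, zero_mul]
          refine Finset.sum_nonneg fun t _ => ?_
          split_ifs
          · exact mul_nonneg h0.le (hν.nonneg t)
          · exact le_rfl
    _ = _ := by rw [Pool.KAF.Pr_eq, Fintype.sum_prod_type]

theorem Pr_sub3 {μ : S → ℝ} (hμ : ∀ s, 0 ≤ μ s) (A B₁ B₂ G : Set S) {x y₁ y₂ : ℝ}
    (hA : x ≤ Pr μ A) (h1 : Pr μ B₁ ≤ y₁) (h2 : Pr μ B₂ ≤ y₂)
    (hG : ∀ s ∈ A, s ∉ B₁ → s ∉ B₂ → s ∈ G) : x - y₁ - y₂ ≤ Pr μ G := by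
  classical
  have h3 : Pr μ A ≤ Pr μ (G ∪ (B₁ ∪ B₂)) := by
    refine Pr_mono hμ fun s _ hs => ?_
    by_cases c1 : s ∈ B₁
    · exact Or.inr (Or.inl c1)
    by_cases c2 : s ∈ B₂
    · exact Or.inr (Or.inr c2)
    exact Or.inl (hG s hs c1 c2)
  have h4 := Pr_union_le hμ G (B₁ ∪ B₂)
  have h5 := Pr_union_le hμ B₁ B₂
  linarith

end

/-- **Row GEOS.** -/
theorem geos_thm : GEOSStmt := by
  classical
  intro dd p₁ hdd hp₁
  set θ : ℝ := dd / 32 with hθ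
  have hθ0 : 0 < θ := by positivity
  refine ⟨min (p₁ * p₁) (min (θ * θ) (θ * p₁)), 2 * C0 2, by positivity, ?_⟩
  intro S T _ _ μ ν χ ψ a b hμ hν ha hb hbd hfar ok
  set B : ℕ := a + b with hB
  set q₀ : ℝ := min (p₁ * p₁) (min (θ * θ) (θ * p₁)) with hq₀
  have hq1 : q₀ ≤ p₁ * p₁ := min_le_left _ _
  have hq2 : q₀ ≤ θ * θ := (min_le_right _ _).trans (min_le_left _ _)
  have hq3 : q₀ ≤ θ * p₁ := (min_le_right _ _).trans (min_le_right _ _)
  have two1 : (1 : ℝ) ≤ 2 := by norm_num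
  have hZ : ∀ M : Fin 2 → Fin 2 → ℝ, ZOK (C0 2 * (B + 1)) M → ZOK (2 * C0 2 * (a + b)) M := by
    intro M hM
    have h1 : C0 2 * (B + 1) ≤ 2 * C0 2 * (a + b) := by
      have : B + 1 ≤ 2 * (a + b) := by omega
      calc C0 2 * (B + 1) ≤ C0 2 * (2 * (a + b)) := Nat.mul_le_mul_left _ this
        _ = _ := by ring
    have h2 : (2 : ℝ) ^ (C0 2 * (B + 1)) ≤ 2 ^ (2 * C0 2 * (a + b)) := pow_le_pow_right₀ two1 h1
    obtain ⟨h3, M', h4, h5⟩ := hM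
    exact ⟨fun i j => (h3 i j).trans h2, M', fun i j => (h4 i j).trans h2, h5⟩
  have hab : (2 : ℝ) ^ a ≤ 2 ^ B := pow_le_pow_right₀ two1 (by omega)
  have hbb : (2 : ℝ) ^ b ≤ 2 ^ B := pow_le_pow_right₀ two1 (by omega)
  -- far coarse vectors
  have hfar' : ∀ V : Submodule ℝ (Fin 2 → ℝ), Module.finrank ℝ V < 2 →
      p₁ ≤ Pr ν {t | ((2 : ℝ) ^ (B + 2))⁻¹ ≤ dV V (ψ t) ∧ ‖ψ t‖ ≤ 2 ^ B} := by
    intro V hV
    obtain ⟨n, hn1, hn2, hn3⟩ := exists_unit_far V hV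
    refine (hfar n hn1 hn2).trans (Pr_mono hν.nonneg fun t _ ht => ?_)
    obtain ⟨h1, h2⟩ := ht
    refine ⟨?_, (norm_le_of h2).trans hab⟩
    have h3 := h1.trans (hn3 (ψ t))
    rw [zpow_neg, zpow_natCast] at h3
    push_cast at h3
    have h4 : ((2 : ℝ) ^ (B + 2))⁻¹ * 4 ≤ ((2 : ℝ) ^ a)⁻¹ := by
      rw [pow_add, mul_inv, mul_assoc]
      norm_num
      exact inv_anti₀ (by positivity) hab
    have h5 : 0 ≤ ((2 : ℝ) ^ (B + 2))⁻¹ := by positivity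
    linarith
  have hbot : Module.finrank ℝ (⊥ : Submodule ℝ (Fin 2 → ℝ)) < 2 := by
    rw [finrank_bot]
    norm_num
  have hspan : ∀ p : Fin 2 → ℝ, Module.finrank ℝ (Submodule.span ℝ {p}) < 2 := by
    intro p
    have : Module.finrank ℝ (Submodule.span ℝ {p}) ≤ 1 := by
      simpa using finrank_span_le_card (R := ℝ) ({p} : Set (Fin 2 → ℝ))
    omega
  -- two coarse references
  have hcc : (∀ v₁ v₂ : T, 0 < ν v₁ → 0 < ν v₂ →
      ((2 : ℝ) ^ (B + 2))⁻¹ ≤ ‖ψ v₁‖ → ‖ψ v₁‖ ≤ 2 ^ B →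
      ((2 : ℝ) ^ (B + 2))⁻¹ ≤ dV (Submodule.span ℝ {ψ v₁}) (ψ v₂) → ‖ψ v₂‖ ≤ 2 ^ B →
      ok (ψ v₁) (ψ v₂)) →
      q₀ ≤ Pr (fun w : T × T => ν w.1 * ν w.2) {w | ok (ψ w.1) (ψ w.2)} := by
    intro h
    refine hq1.trans (Pr_pair_ge hν hν _ (fun v₁ => {t | ((2 : ℝ) ^ (B + 2))⁻¹ ≤
      dV (Submodule.span ℝ {ψ v₁}) (ψ t) ∧ ‖ψ t‖ ≤ 2 ^ B}) _ hp₁.le (hfar' ⊥ hbot)
      (fun v₁ _ _ => hfar' _ (hspan _)) ?_)
    intro v₁ hv₁ h0 v₂ hv₂ h0'
    obtain ⟨k1, k2⟩ := hv₁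
    rw [dV_bot] at k1
    exact h v₁ v₂ h0 h0' k1 k2 hv₂.1 hv₂.2
  rcases le_or_gt 1 dd with hd1 | hd1
  · -- trivial samples
    left
    refine hcc fun v₁ v₂ _ _ k1 k2 k3 k4 => ?_
    have h1 := (pair_good (ψ v₁) (ψ v₂) 0 B (by norm_num) k2 k4 (fun h => absurd h (by norm_num))
      (fun _ => k1) (fun h => absurd h (by norm_num)) fun _ => k3).1
    obtain ⟨M, hM, h2, h3⟩ := h1
    exact ⟨⟨M, hZ M hM, h2, h3⟩, fun M _ _ => (Pr_le_one hμ _).trans hd1⟩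
  -- quantiles
  set M₀ : ℝ := qt μ (fun s => ‖χ s‖) (dd / 4) with hM₀
  obtain ⟨m1, m2⟩ := qt_spec hμ (fun s => ‖χ s‖) (δ := dd / 4) (by positivity) (by linarith)
  rw [← hM₀] at m1 m2
  set M₁ : S → ℝ := fun s => qt μ (fun s' => dV (Submodule.span ℝ {χ s}) (χ s')) (dd / 2) with hM₁
  have hM₁s : ∀ s, dd / 2 ≤ Pr μ {s' | M₁ s ≤ dV (Submodule.span ℝ {χ s}) (χ s')} ∧
      Pr μ {s' | M₁ s < dV (Submodule.span ℝ {χ s}) (χ s')} ≤ dd / 2 := fun s =>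
    qt_spec hμ _ (by positivity) (by linarith)
  set τ₀ : ℝ := ((2 : ℝ) ^ (L0 2 * (B + 1)))⁻¹ with hτ₀
  set τ₁ : ℝ := ((2 : ℝ) ^ (2 * (L0 2 * (B + 1))))⁻¹ with hτ₁
  set U : Set S := {s | ∃ i, (2 : ℝ) ^ b < |χ s i|} with hU
  rcases lt_or_ge M₀ τ₀ with hc0 | hc0
  · -- coarse and coarse
    left
    refine hcc fun v₁ v₂ _ _ k1 k2 k3 k4 => ?_
    obtain ⟨⟨M, hM, h2, h3⟩, h4⟩ := pair_good (ψ v₁) (ψ v₂) 0 B (by norm_num) k2 k4
      (fun h => absurd h (by norm_num)) (fun _ => k1) (fun h => absurd h (by norm_num)) fun _ => k3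
    refine ⟨⟨M, hZ M hM, h2, h3⟩, fun M h5 h6 => ?_⟩
    refine (Pr_mono hμ.nonneg fun s _ hs => ?_).trans (m2.trans (by linarith))
    by_contra hcon
    obtain ⟨i, hi⟩ := hs
    have h7 : ‖χ s‖ ≤ M₀ := not_lt.1 hcon
    refine absurd (h4 M h5 h6 (χ s) (fun h => absurd h (by norm_num)) (fun _ => ?_)
      (fun h => absurd h (by norm_num)) (fun h => absurd h (by norm_num)) i) (not_le.2 hi)
    exact h7.trans hc0.le
  right
  -- the first fine reference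
  set A : Set S := {s | M₀ ≤ ‖χ s‖ ∧ ‖χ s‖ ≤ 2 ^ B} with hA
  have hA1 : dd / 4 - dd / 16 - 0 ≤ Pr μ A := by
    refine Pr_sub3 hμ.nonneg {s | M₀ ≤ ‖χ s‖} U ∅ A m1 hbd ?_ ?_
    · rw [Pool.KAF.Pr_eq]
      simp
    · intro s hs h1 _
      exact ⟨hs, (lt_norm_of h1).trans hbb⟩
  set A₁ : Set S := {s | s ∈ A ∧ τ₁ ≤ M₁ s} with hA₁
  set A₂ : Set S := {s | s ∈ A ∧ M₁ s < τ₁} with hA₂
  have hA12 : Pr μ A ≤ Pr μ A₁ + Pr μ A₂ := by
    refine le_trans (Pr_mono hμ.nonneg fun s _ hs => ?_) (Pr_union_le hμ.nonneg A₁ A₂)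
    rcases le_or_gt τ₁ (M₁ s) with h | h
    · exact Or.inl ⟨hs, h⟩
    · exact Or.inr ⟨hs, h⟩
  rcases le_or_gt θ (Pr μ A₁) with hc1 | hc1
  · -- fine and fine
    left
    refine hq2.trans (Pr_pair_ge hμ hμ A₁ (fun s => {s' | M₁ s ≤ dV (Submodule.span ℝ {χ s}) (χ s') ∧
      ‖χ s'‖ ≤ M₀ ∧ ‖χ s'‖ ≤ 2 ^ B}) _ hθ0.le hc1 ?_ ?_)
    · intro s _ _
      have h1 : dd / 2 - dd / 16 - dd / 4 ≤ Pr μ {s' | M₁ s ≤ dV (Submodule.span ℝ {χ s}) (χ s') ∧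
          ‖χ s'‖ ≤ M₀ ∧ ‖χ s'‖ ≤ 2 ^ B} :=
        Pr_sub3 hμ.nonneg _ U {s | M₀ < ‖χ s‖} _ (hM₁s s).1 hbd m2 fun s' hs' h1 h2 =>
          ⟨hs', not_lt.1 h2, (lt_norm_of h1).trans hbb⟩
      linarith
    · intro s hs _ s' hs' _
      obtain ⟨⟨k1, k2⟩, k3⟩ := hs
      obtain ⟨k4, k5, k6⟩ := hs'
      obtain ⟨⟨M, hM, h2, h3⟩, h4⟩ := pair_good (χ s) (χ s') 2 B le_rfl k2 k6
        (fun _ => hc0.trans k1) (fun h => absurd h (by norm_num))
        (fun _ => ⟨k3.trans k4, k5.trans k1⟩) (fun h => absurd h (by norm_num))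
      refine ⟨⟨M, hZ M hM, h2, h3⟩, fun M h5 h6 => ?_⟩
      have h8 : Pr μ {s | ∃ i, (2 : ℝ) ^ 2 < |zc M (χ s) i|} ≤
          Pr μ ({s | M₀ < ‖χ s‖} ∪ {s' | M₁ s < dV (Submodule.span ℝ {χ s}) (χ s')}) := by
        refine Pr_mono hμ.nonneg fun v _ hv => ?_
        by_contra hcon
        obtain ⟨i, hi⟩ := hv
        have c1 : ‖χ v‖ ≤ M₀ := by
          by_contra h
          exact hcon (Or.inl (not_le.1 h))
        have c2 : dV (Submodule.span ℝ {χ s}) (χ v) ≤ M₁ s := by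
          by_contra h
          exact hcon (Or.inr (not_le.1 h))
        exact absurd (h4 M h5 h6 (χ v) (fun _ => c1.trans k1) (fun h => absurd h (by norm_num))
          (fun _ => c2.trans k4) (fun h => absurd h (by norm_num)) i) (not_le.2 hi)
      have h9 := Pr_union_le hμ.nonneg {s | M₀ < ‖χ s‖}
        {s' | M₁ s < dV (Submodule.span ℝ {χ s}) (χ s')}
      have h10 := (hM₁s s).2
      linarith
  · -- fine and coarse
    right
    have hc2 : θ ≤ Pr μ A₂ := by linarith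
    refine hq3.trans (Pr_pair_ge hμ hν A₂ (fun s => {t | ((2 : ℝ) ^ (B + 2))⁻¹ ≤
      dV (Submodule.span ℝ {χ s}) (ψ t) ∧ ‖ψ t‖ ≤ 2 ^ B}) _ hp₁.le hc2
      (fun s _ _ => hfar' _ (hspan _)) ?_)
    intro s hs _ t ht _
    obtain ⟨⟨k1, k2⟩, k3⟩ := hs
    obtain ⟨k4, k5⟩ := ht
    obtain ⟨⟨M, hM, h2, h3⟩, h4⟩ := pair_good (χ s) (ψ t) 1 B (by norm_num) k2 k5
      (fun _ => hc0.trans k1) (fun h => absurd h (by norm_num))
      (fun h => absurd h (by norm_num)) (fun _ => k4)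
    refine ⟨⟨M, hZ M hM, h2, h3⟩, fun M h5 h6 => ?_⟩
    have h8 : Pr μ {s | ∃ i, (2 : ℝ) ^ 2 < |zc M (χ s) i|} ≤
        Pr μ ({s | M₀ < ‖χ s‖} ∪ {s' | M₁ s < dV (Submodule.span ℝ {χ s}) (χ s')}) := by
      refine Pr_mono hμ.nonneg fun v _ hv => ?_
      by_contra hcon
      obtain ⟨i, hi⟩ := hv
      have c1 : ‖χ v‖ ≤ M₀ := by
        by_contra h
        exact hcon (Or.inl (not_le.1 h))
      have c2 : dV (Submodule.span ℝ {χ s}) (χ v) ≤ M₁ s := by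
        by_contra h
        exact hcon (Or.inr (not_le.1 h))
      exact absurd (h4 M h5 h6 (χ v) (fun _ => c1.trans k1) (fun h => absurd h (by norm_num))
        (fun h => absurd h (by norm_num)) (fun _ => c2.trans k3.le) i) (not_le.2 hi)
    have h9 := Pr_union_le hμ.nonneg {s | M₀ < ‖χ s‖}
      {s' | M₁ s < dV (Submodule.span ℝ {χ s}) (χ s')}
    have h10 := (hM₁s s).2
    linarith

end Pool.OCV.Geos
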