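import Pool.Agent.H98.OCV.Stmts2
import Pool.Agent.H66.OCV.Geos
import Pool.Agent.H70.K2.AVG
import Pool.Agent.H86.OC.RA

/-!
Theorem OCV, row GEO: the laws of the references.
-/

set_option autoImplicit false

namespace Pool.OCV.GeoA

open Finset Real Pool.OCM Pool.OCM.Bas
open Pool.Agent.H32.Dense Pool.STK Pool.KAF Pool.Agent.H49.Ent

variable {c : ℕ} (d : Dat c)

theorem Pr_nn {Ω : Type} [Fintype Ω] {p : Ω → ℝ} (hp : ∀ ω, 0 ≤ p ω) (E : Set Ω) : 0 ≤ Pr p E :=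
  Pool.KAF.Pr_nonneg hp E

theorem pl_law {ω : d.Om} (hP : IsLaw d.P) (hω : 0 < d.P ω) : IsLaw (d.pl ω) :=
  Pool.KX.AVG.cond_law hP d.L hω

theorem pk_law {ω : d.Om} (hP : IsLaw d.P) (hω : 0 < d.P ω) (i : ℕ) : IsLaw (d.pk i ω) :=
  Pool.KX.AVG.cond_law hP (fun v => (d.L v, d.Ti i v)) hω

theorem pp_law {ω : d.Om} (hP : IsLaw d.P) (hω : 0 < d.P ω) : IsLaw (d.pp ω) :=
  Pool.KX.AVG.cond_law hP d.pt hω

theorem ker_true (n : ℕ) (ω a : d.Om) :
    ker d true n ω a = (∑ i ∈ Finset.Ico n (2 * n), d.pk i ω a) / n := by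
  unfold ker
  rw [if_pos rfl]

theorem ker_false (n : ℕ) (ω : d.Om) : ker d false n ω = d.pl ω := by
  funext a
  unfold ker
  rw [if_neg (by simp)]

theorem Pr_ker_true (n : ℕ) (ω : d.Om) (E : Set d.Om) : Pr (ker d true n ω) E = d.fm n ω E := by
  classical
  unfold Dat.fm
  simp only [Pool.KAF.Pr_eq, ker_true]
  rw [Finset.sum_comm, Finset.sum_div]
  refine Finset.sum_congr rfl fun a _ => ?_
  split_ifs
  · rfl
  · simp

theorem ker_law {ω : d.Om} (hP : IsLaw d.P) (hω : 0 < d.P ω) {n : ℕ} (hn : 1 ≤ n) (s : Bool) :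
    IsLaw (ker d s n ω) := by
  cases s with
  | false => rw [ker_false]; exact pl_law d hP hω
  | true =>
    have hn' : (0 : ℝ) < n := by exact_mod_cast hn
    refine ⟨fun a => ?_, ?_⟩
    · rw [ker_true]
      exact div_nonneg (Finset.sum_nonneg fun i _ => (pk_law d hP hω i).nonneg a) hn'.le
    · simp only [ker_true]
      rw [← Finset.sum_div, Finset.sum_comm,
        Finset.sum_congr rfl fun i _ => (pk_law d hP hω i).sum_one, sum_const, Nat.card_Ico,
        nsmul_eq_mul, mul_one, show 2 * n - n = n by omega, div_self hn'.ne']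

theorem ker_supp {ω a : d.Om} (hP : IsLaw d.P) {n : ℕ} {s : Bool}
    (h : 0 < ker d s n ω a) : 0 < d.P a ∧ d.L a = d.L ω := by
  cases s with
  | false =>
    rw [ker_false] at h
    exact (cond_pos_iff hP.nonneg _ _ a).1 h
  | true =>
    rw [ker_true] at h
    have h1 : 0 < ∑ i ∈ Finset.Ico n (2 * n), d.pk i ω a := by
      by_contra hcon
      have h2 : (∑ i ∈ Finset.Ico n (2 * n), d.pk i ω a) / n ≤ 0 :=
        div_nonpos_of_nonpos_of_nonneg (not_lt.1 hcon) (Nat.cast_nonneg n)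
      linarith
    obtain ⟨i, -, hi⟩ := Finset.exists_lt_of_sum_lt (f := fun _ => (0 : ℝ)) (by simpa using h1)
    obtain ⟨h2, h3⟩ := (cond_pos_iff hP.nonneg _ _ a).1 hi
    exact ⟨h2, (Prod.ext_iff.1 h3).1⟩

/-- The mean of the laws of the references. -/
theorem ker_mean (hP : IsLaw d.P) {n : ℕ} (hn : 1 ≤ n) (s : Bool) (E : Set d.Om) :
    ∑ ω, d.P ω * Pr (ker d s n ω) E = Pr d.P E := by
  cases s with
  | false =>
    simp only [ker_false]
    exact Pool.KX.AVG.Pr_cond_sum hP.nonneg d.L E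
  | true =>
    have hn' : (0 : ℝ) < n := by exact_mod_cast hn
    simp only [Pr_ker_true]
    unfold Dat.fm
    have h1 : ∀ ω, d.P ω * ((∑ i ∈ Finset.Ico n (2 * n), Pr (d.pk i ω) E) / n) =
        ∑ i ∈ Finset.Ico n (2 * n), d.P ω * Pr (d.pk i ω) E / n := by
      intro ω
      rw [Finset.sum_div, Finset.mul_sum]
      exact Finset.sum_congr rfl fun i _ => by ring
    rw [Finset.sum_congr rfl fun ω _ => h1 ω, Finset.sum_comm]
    have h2 : ∀ i ∈ Finset.Ico n (2 * n), ∑ ω, d.P ω * Pr (d.pk i ω) E / n = Pr d.P E / n := by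
      intro i _
      rw [← Finset.sum_div]
      congr 1
      exact Pool.KX.AVG.Pr_cond_sum hP.nonneg (fun v => (d.L v, d.Ti i v)) E
    rw [Finset.sum_congr rfl h2, sum_const, Nat.card_Ico, nsmul_eq_mul,
      show 2 * n - n = n by omega, mul_div_cancel₀ _ hn'.ne']

/-- Markov's inequality for the references. -/
theorem ker_markov (hP : IsLaw d.P) {n : ℕ} (hn : 1 ≤ n) (s : Bool) (E : Set d.Om) {x : ℝ}
    (hx : 0 < x) : Pr d.P {ω | x < Pr (ker d s n ω) E} ≤ Pr d.P E / x := by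
  refine Pool.KX.AVG.markov hP.nonneg (fun ω => Pr (ker d s n ω) E)
    (fun ω hω => Pr_nn (ker_law d hP hω hn s).nonneg E) x _ hx ?_
  rw [ker_mean d hP hn, mul_div_cancel₀ _ hx.ne']

theorem pp_markov (hP : IsLaw d.P) (E : Set d.Om) {x : ℝ}
    (hx : 0 < x) : Pr d.P {ω | x < Pr (d.pp ω) E} ≤ Pr d.P E / x := by
  refine Pool.KX.AVG.markov hP.nonneg (fun ω => Pr (d.pp ω) E)
    (fun ω hω => Pr_nn (pp_law d hP hω).nonneg E) x _ hx ?_
  have h1 : ∑ ω, d.P ω * Pr (d.pp ω) E = Pr d.P E := Pool.KX.AVG.Pr_cond_sum hP.nonneg d.pt E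
  rw [h1, mul_div_cancel₀ _ hx.ne']

/-! ### Probabilities of the schemes -/

/-- Pairs as functions on `Fin 2`. -/
theorem sum_fin2 {S : Type} [Fintype S] (F : (Fin 2 → S) → ℝ) :
    ∑ v : Fin 2 → S, F v = ∑ x : S, ∑ y : S, F ![x, y] := by
  rw [← (finTwoArrowEquiv S).symm.sum_comp, Fintype.sum_prod_type]
  rfl

end Pool.OCV.GeoA
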